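import Pool.Agent.Helper25.LRT.Equiv

/-!
The structure theorem for graphs with twins.
-/

namespace Pool.Agent.Helper25.LRT

open Finset Matrix Pool.Agent.Helper26

/-- A set of representatives of the classes of vertices with the same neighbourhood. -/
theorem twin_reps {V : Type*} [Fintype V] [DecidableEq V] (G : SimpleGraph V) :
    ∃ W : Finset V, TF (G.comap (Subtype.val : W → V)) ∧
      Nonempty (G →g G.comap (Subtype.val : W → V)) := by
  classical
  let f : V → Finset V := fun v => univ.filter fun w => G.Adj v w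
  have hf : ∀ u v, v ∈ f u ↔ G.Adj u v := fun u v => by simp [f]
  obtain ⟨W, _, hinj, himg⟩ := Finset.exists_subset_injOn_image_eq_of_surjOn (f := f)
    (Set.univ : Set V) (univ.image f) (by
      intro y hy
      obtain ⟨v, _, hv⟩ := mem_image.1 (mem_coe.1 hy)
      exact ⟨v, Set.mem_univ v, hv⟩)
  have hrep : ∀ v : V, ∃ w : W, f w = f v := by
    intro v
    have h1 : f v ∈ W.image f := by rw [himg]; exact mem_image_of_mem f (mem_univ v)
    obtain ⟨w, hw, h2⟩ := mem_image.1 h1
    exact ⟨⟨w, hw⟩, h2⟩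
  choose ρ hρ using hrep
  have h1 : ∀ u v : V, G.Adj (ρ u) v ↔ G.Adj u v := by
    intro u v
    rw [← hf, ← hf, hρ]
  have h2 : ∀ u v : V, G.Adj u (ρ v) ↔ G.Adj u v := by
    intro u v
    rw [G.adj_comm, h1, G.adj_comm]
  refine ⟨W, ?_, ⟨⟨ρ, fun {u v} h => ?_⟩⟩⟩
  · intro u v huv _ hN
    apply huv
    apply Subtype.ext
    apply hinj u.2 v.2
    ext z
    rw [hf, hf, ← h2 u z, ← h2 v z]
    have h3 : ρ z ∈ (G.comap (Subtype.val : W → V)).neighborSet u ↔
        ρ z ∈ (G.comap (Subtype.val : W → V)).neighborSet v := by rw [hN]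
    exact h3
  · change G.Adj (ρ u) (ρ v)
    rw [h1, h2]
    exact h

theorem structure_all {V : Type*} [Fintype V] [DecidableEq V] (G : SimpleGraph V)
    [DecidableRel G.Adj] (hr : 1 < (G.adjMatrix ℝ).rank) :
    ∃ S : Finset V, G.chromaticNumber.toNat ≤ 8 * #S ∧
      ∀ I ⊆ S, G.IsIndepSet I → #I < (G.adjMatrix ℝ).rank ^ 2 := by
  classical
  obtain ⟨W, hW, ⟨φ⟩⟩ := twin_reps G
  have hrk : ((G.comap (Subtype.val : W → V)).adjMatrix ℝ).rank ≤ (G.adjMatrix ℝ).rank :=
    rank_submatrix_le (G.adjMatrix ℝ) (Subtype.val : W → V) (Subtype.val : W → V)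
  have hcard := (card_le_two_pow _ hW).trans (Nat.pow_le_pow_right (by norm_num) hrk)
  obtain ⟨S, hS, hind⟩ := structure_thm _ (r := (G.adjMatrix ℝ).rank) hr hrk hcard
  refine ⟨S.map ⟨Subtype.val, Subtype.val_injective⟩, ?_, ?_⟩
  · rw [card_map]
    refine le_trans ?_ hS
    have h1 := SimpleGraph.chromaticNumber_mono_of_hom φ
    apply ENat.toNat_le_toNat h1
    have h2 : (G.comap (Subtype.val : W → V)).Colorable (Fintype.card W) :=
      SimpleGraph.colorable_of_fintype _
    exact ne_top_of_le_ne_top (ENat.natCast_ne_top _) h2.chromaticNumber_le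
  · intro I hI hindep
    obtain ⟨J, hJ, rfl⟩ := Finset.subset_map_iff.1 hI
    rw [card_map]
    apply hind J hJ
    intro u hu v hv hadj
    have hne : u ≠ v := by
      rintro rfl
      exact (G.comap (Subtype.val : W → V)).loopless.irrefl u hadj
    exact hindep (mem_coe.2 (mem_map_of_mem _ hu)) (mem_coe.2 (mem_map_of_mem _ hv))
      (fun h => hne (Subtype.val_injective h)) hadj

/-- The converse estimate. -/
theorem card_le_of_indep {n k : ℕ} (G : SimpleGraph (Fin n)) (S : Finset (Fin n))
    (h : ∀ I ⊆ S, G.IsIndepSet I → #I < k) : #S ≤ k * G.chromaticNumber.toNat := by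
  classical
  obtain ⟨C⟩ := G.colorable_chromaticNumber_of_fintype
  rw [mul_comm]
  have h1 := card_le_mul_card_image_of_maps_to (s := S)
    (t := (univ : Finset (Fin G.chromaticNumber.toNat))) (f := fun v => C v)
    (fun v _ => mem_univ _) k (by
      intro i _
      apply le_of_lt
      apply h _ (filter_subset _ _)
      intro u hu v hv _ hadj
      rw [mem_coe, mem_filter] at hu hv
      exact C.valid hadj (hu.2.trans hv.2.symm))
  rw [card_univ, Fintype.card_fin, mul_comm] at h1
  exact h1

end Pool.Agent.Helper25.LRT
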