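import Pool.Agent.Helper25.LRT.Sample
import Pool.Agent.Helper26.HFree

/-!
Independent sets of a graph of small rank lie in few closed independent sets.
-/

namespace Pool.Agent.Helper25.LRT

open Finset Matrix

variable {V : Type*} [Fintype V] [DecidableEq V] (G : SimpleGraph V) [DecidableRel G.Adj]

theorem basis_subset (I : Finset V) : ∃ B ⊆ I, #B ≤ (G.adjMatrix ℝ).rank ∧
    ∀ v, (∀ b ∈ B, ¬ G.Adj v b) → ∀ i ∈ I, ¬ G.Adj v i := by
  classical
  let f : I → (V → ℝ) := fun i => (G.adjMatrix ℝ).row i.1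
  obtain ⟨κ, a, ha, hspan, hli⟩ := exists_linearIndependent' ℝ f
  have : Finite κ := Finite.of_injective a ha
  have : Fintype κ := Fintype.ofFinite κ
  refine ⟨univ.image fun k => (a k).1, ?_, ?_, ?_⟩
  · intro v hv
    obtain ⟨k, _, rfl⟩ := mem_image.1 hv
    exact (a k).2
  · calc #(univ.image fun k => (a k).1) ≤ Fintype.card κ := card_image_le
      _ = Module.finrank ℝ (Submodule.span ℝ (Set.range (f ∘ a))) :=
          (finrank_span_eq_card hli).symm
      _ ≤ Module.finrank ℝ (Submodule.span ℝ (Set.range (G.adjMatrix ℝ).row)) := by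
          apply Submodule.finrank_mono
          apply Submodule.span_mono
          rintro y ⟨k, rfl⟩
          exact ⟨(a k).1, rfl⟩
      _ = (G.adjMatrix ℝ).rank := (Matrix.rank_eq_finrank_span_row _).symm
  · intro v hv i hi hadj
    have h1 : f ⟨i, hi⟩ ∈ Submodule.span ℝ (Set.range (f ∘ a)) := by
      rw [hspan]
      exact Submodule.subset_span ⟨⟨i, hi⟩, rfl⟩
    have h2 : ∀ y ∈ Submodule.span ℝ (Set.range (f ∘ a)), y v = 0 := by
      intro y hy
      induction hy using Submodule.span_induction with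
      | mem y hy =>
        obtain ⟨k, rfl⟩ := hy
        have h3 := hv (a k).1 (mem_image.2 ⟨k, mem_univ _, rfl⟩)
        change (G.adjMatrix ℝ) (a k).1 v = 0
        rw [SimpleGraph.adjMatrix_apply, if_neg]
        rwa [G.adj_comm]
      | zero => rfl
      | add y z _ _ hy hz => rw [Pi.add_apply, hy, hz, add_zero]
      | smul c y _ hy => rw [Pi.smul_apply, hy, smul_zero]
    have h3 := h2 _ h1
    change (G.adjMatrix ℝ) i v = 0 at h3
    rw [SimpleGraph.adjMatrix_apply, if_pos hadj.symm] at h3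
    exact one_ne_zero h3

/-- The double complement neighbourhood. -/
def cl (B : Finset V) : Finset V :=
  univ.filter fun u => ∀ v, (∀ b ∈ B, ¬ G.Adj v b) → ¬ G.Adj u v

theorem cl_spec {I : Finset V} (hI : ∀ u ∈ I, ∀ v ∈ I, ¬ G.Adj u v) :
    ∃ B ⊆ I, #B ≤ (G.adjMatrix ℝ).rank ∧ I ⊆ cl G B ∧
      ∀ u ∈ cl G B, ∀ v ∈ cl G B, ¬ G.Adj u v := by
  obtain ⟨B, hBI, hB, hZ⟩ := basis_subset G I
  refine ⟨B, hBI, hB, ?_, ?_⟩
  · intro i hi
    rw [cl, mem_filter]
    refine ⟨mem_univ _, fun v hv hadj => hZ v hv i hi hadj.symm⟩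
  · intro u hu v hv
    rw [cl, mem_filter] at hu hv
    apply hu.2
    intro b hb hadj
    exact hv.2 b (fun c hc hbc => hI b (hBI hb) c (hBI hc) hbc) hadj

omit [DecidableEq V] in
theorem card_small_subsets (r : ℕ) :
    #{B : Finset V | #B ≤ r} ≤ (Fintype.card V + 1) ^ r := by
  classical
  have h1 : (univ.filter fun B : Finset V => #B ≤ r) ⊆
      (range (r + 1)).biUnion fun i => powersetCard i (univ : Finset V) := by
    intro B hB
    rw [mem_filter] at hB
    refine mem_biUnion.2 ⟨#B, mem_range.2 (by omega), mem_powersetCard.2 ⟨subset_univ _, rfl⟩⟩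
  calc #{B : Finset V | #B ≤ r}
      ≤ #((range (r + 1)).biUnion fun i => powersetCard i (univ : Finset V)) := card_le_card h1
    _ ≤ ∑ i ∈ range (r + 1), #(powersetCard i (univ : Finset V)) := card_biUnion_le
    _ = ∑ i ∈ range (r + 1), (Fintype.card V).choose i := by
        apply sum_congr rfl
        intro i _
        rw [card_powersetCard, card_univ]
    _ ≤ ∑ i ∈ range (r + 1), (Fintype.card V) ^ i * 1 ^ (r - i) * r.choose i := by
        apply sum_le_sum
        intro i hi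
        have h2 : 1 ≤ r.choose i := Nat.choose_pos (by have := mem_range.1 hi; omega)
        have h3 : (Fintype.card V).choose i ≤ (Fintype.card V) ^ i := Nat.choose_le_pow _ _
        rw [one_pow, mul_one]
        calc (Fintype.card V).choose i ≤ (Fintype.card V) ^ i * 1 := by rw [mul_one]; exact h3
          _ ≤ _ := Nat.mul_le_mul_left _ h2
    _ = (Fintype.card V + 1) ^ r := by
        have := add_pow (Fintype.card V) 1 r
        rw [this]
        simp

theorem pow_ineq {r : ℕ} (hr : 2 ≤ r) : (2 ^ r + 1) * 3 ^ r < 8 ^ r := by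
  induction r, hr using Nat.le_induction with
  | base => norm_num
  | succ r hr ih =>
    calc (2 ^ (r + 1) + 1) * 3 ^ (r + 1) ≤ 6 * ((2 ^ r + 1) * 3 ^ r) := by
          rw [pow_succ, pow_succ]; nlinarith [Nat.pow_pos (n := r) (show 0 < 3 by norm_num)]
      _ < 8 * 8 ^ r := by nlinarith [Nat.pow_pos (n := r) (show 0 < 8 by norm_num)]
      _ = 8 ^ (r + 1) := by ring

theorem count_ineq {r n : ℕ} (hr : 2 ≤ r) (hn : n ≤ 2 ^ r) :
    (n + 1) ^ r * 3 ^ (r ^ 2) < 8 ^ (r ^ 2) := by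
  calc (n + 1) ^ r * 3 ^ (r ^ 2) ≤ (2 ^ r + 1) ^ r * 3 ^ (r ^ 2) := by
        apply Nat.mul_le_mul_right
        exact Nat.pow_le_pow_left (by omega) _
    _ = ((2 ^ r + 1) * 3 ^ r) ^ r := by rw [mul_pow, ← pow_mul, sq]
    _ < (8 ^ r) ^ r := Nat.pow_lt_pow_left (pow_ineq hr) (by omega)
    _ = 8 ^ (r ^ 2) := by rw [← pow_mul, sq]

theorem exists_large_indep {r N : ℕ} (hr : 2 ≤ r) (hrk : (G.adjMatrix ℝ).rank ≤ r)
    (hn : Fintype.card V ≤ 2 ^ r) (hN : r ^ 2 ≤ N) {U : Finset V} (hU : N ≤ #U)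
    (h : ∀ S ⊆ U, #S = N → ∃ I ⊆ S, r ^ 2 ≤ #I ∧ ∀ u ∈ I, ∀ v ∈ I, ¬ G.Adj u v) :
    ∃ I ⊆ U, r ^ 2 * #U ≤ 8 * N * #I ∧ ∀ u ∈ I, ∀ v ∈ I, ¬ G.Adj u v := by
  classical
  by_contra hcon
  push Not at hcon
  have hr2 : 0 < r ^ 2 := by positivity
  have hcon' : ∀ I ⊆ U, (∀ u ∈ I, ∀ v ∈ I, ¬ G.Adj u v) → 8 * N * #I < r ^ 2 * #U := by
    intro I hI hind
    by_contra hlt
    obtain ⟨u, hu, v, hv, huv⟩ := hcon I hI (by omega)
    exact hind u hu v hv huv
  set x := r ^ 2 * #U / (8 * N) with hx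
  have hx1 : 8 * N * x ≤ r ^ 2 * #U := Nat.mul_div_le _ _
  have hx2 : x ≤ #U := by
    have h1 : 8 * N * x ≤ N * #U := hx1.trans (Nat.mul_le_mul_right _ hN)
    have h2 : N * x ≤ N * #U := by
      refine le_trans ?_ h1
      nlinarith [Nat.zero_le (N * x)]
    exact Nat.le_of_mul_le_mul_left h2 (by omega)
  have hxI : ∀ I ⊆ U, (∀ u ∈ I, ∀ v ∈ I, ¬ G.Adj u v) → #I ≤ x := by
    intro I hI hind
    rw [hx, Nat.le_div_iff_mul_le (by omega)]
    have := hcon' I hI hind
    rw [Nat.mul_comm]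
    omega
  let F : Finset (Finset V) := (({B : Finset V | #B ≤ r} : Finset (Finset V)).image
    fun B => cl G B ∩ U).filter fun A => ∀ u ∈ A, ∀ v ∈ A, ¬ G.Adj u v
  have hFcard : #F ≤ (Fintype.card V + 1) ^ r :=
    (card_filter_le _ _).trans (card_image_le.trans (card_small_subsets r))
  have hFx : ∀ A ∈ F, #A ≤ x := by
    intro A hA
    obtain ⟨hA1, hA2⟩ := mem_filter.1 hA
    obtain ⟨B, _, rfl⟩ := mem_image.1 hA1
    exact hxI _ inter_subset_right hA2
  obtain ⟨S, hSU, hSN, hS⟩ := sample (U := U) (F := F) (N := N) (t := r ^ 2) (x := x) hN hU hFx (by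
    apply sample_num (by omega) (by omega) hx2 hx1
    calc #F * 3 ^ (r ^ 2) ≤ (Fintype.card V + 1) ^ r * 3 ^ (r ^ 2) := Nat.mul_le_mul_right _ hFcard
      _ < _ := count_ineq hr hn)
  obtain ⟨I, hIS, hIcard, hind⟩ := h S hSU hSN
  obtain ⟨B, hBI, hB, hIcl, hclind⟩ := cl_spec G hind
  have hmem : cl G B ∩ U ∈ F := by
    refine mem_filter.2 ⟨mem_image.2 ⟨B, mem_filter.2 ⟨mem_univ _, hB.trans hrk⟩, rfl⟩, ?_⟩
    intro u hu v hv
    exact hclind u (mem_inter.1 hu).1 v (mem_inter.1 hv).1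
  have h1 := hS _ hmem
  have h2 : #I ≤ #(S ∩ (cl G B ∩ U)) := by
    apply card_le_card
    intro i hi
    exact mem_inter.2 ⟨hIS hi, mem_inter.2 ⟨hIcl hi, hSU (hIS hi)⟩⟩
  omega

end Pool.Agent.Helper25.LRT
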