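import Mathlib

/-!
The graph form of the log-rank conjecture and two of its special cases.
-/

namespace Pool.Agent.Helper25.LRT

/-- `G` is connected and twin-free (non-adjacent distinct vertices have different neighbourhoods),
and its adjacency matrix has real rank greater than 1. -/
def Admissible {n : ℕ} (G : SimpleGraph (Fin n)) [DecidableRel G.Adj] : Prop :=
  G.Connected ∧ (∀ u v : Fin n, u ≠ v → ¬ G.Adj u v → G.neighborSet u ≠ G.neighborSet v) ∧
    1 < (G.adjMatrix ℝ).rank

/-- Q1, the graph form of the log-rank conjecture: `log χ(G) ≤ C (log r) ^ c` for every connected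
twin-free graph `G` of rank `r > 1`. -/
def LogRank : Prop :=
  ∃ c : ℝ, 0 < c ∧ ∃ C : ℝ, ∀ (n : ℕ) (G : SimpleGraph (Fin n)) [DecidableRel G.Adj],
    Admissible G →
      Real.log (G.chromaticNumber.toNat : ℝ) ≤ C * Real.log (G.adjMatrix ℝ).rank ^ c

/-- Q1 for the graphs which have no induced edgeless subgraph on more than `exp ((log r) ^ γ)`
vertices. -/
def LogRankSmallAlpha (γ : ℝ) : Prop :=
  ∃ c : ℝ, 0 < c ∧ ∃ C : ℝ, ∀ (n : ℕ) (G : SimpleGraph (Fin n)) [DecidableRel G.Adj],
    Admissible G →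
    (∀ s : Finset (Fin n), G.IsIndepSet s →
      (s.card : ℝ) ≤ Real.exp (Real.log (G.adjMatrix ℝ).rank ^ γ)) →
      Real.log (G.chromaticNumber.toNat : ℝ) ≤ C * Real.log (G.adjMatrix ℝ).rank ^ c

/-- Every admissible graph of rank `r` with `n ≥ exp (C (log r) ^ c)` vertices has a colouring with
at most `n / exp ((log r) ^ γ)` colours. -/
def Saving (γ : ℝ) : Prop :=
  ∃ c : ℝ, 0 < c ∧ ∃ C : ℝ, ∀ (n : ℕ) (G : SimpleGraph (Fin n)) [DecidableRel G.Adj],
    Admissible G → Real.exp (C * Real.log (G.adjMatrix ℝ).rank ^ c) ≤ n →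
      (G.chromaticNumber.toNat : ℝ) ≤ n / Real.exp (Real.log (G.adjMatrix ℝ).rank ^ γ)

end Pool.Agent.Helper25.LRT
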