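import Pool.Agent.Helper25.LRT.Defs

/-!
The graph form of the log-rank conjecture for graphs of large order.
-/

namespace Pool.Agent.Helper25.LRT

/-- Q1 for the graphs of order at least `2 ^ (r / 2 - exp ((log r) ^ γ))`. -/
def LogRankLargeOrder (γ : ℝ) : Prop :=
  ∃ c : ℝ, 0 < c ∧ ∃ C : ℝ, ∀ (n : ℕ) (G : SimpleGraph (Fin n)) [DecidableRel G.Adj],
    Admissible G →
    (2 : ℝ) ^ (((G.adjMatrix ℝ).rank : ℝ) / 2 - Real.exp (Real.log (G.adjMatrix ℝ).rank ^ γ)) ≤ n →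
      Real.log (G.chromaticNumber.toNat : ℝ) ≤ C * Real.log (G.adjMatrix ℝ).rank ^ c

end Pool.Agent.Helper25.LRT
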