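import Mathlib

/-!
The Ramsey form of the log-rank conjecture.
-/

namespace Pool.Agent.Helper25.LRT

/-- For some `c > 0` every graph `G` on `n ≥ 1` vertices has an independent set `s` with
`(rank G + 1) |s| ≥ exp (c (log n) ^ c)`. -/
def RamseyForm : Prop :=
  ∃ c : ℝ, 0 < c ∧ ∀ (n : ℕ) (G : SimpleGraph (Fin n)) [DecidableRel G.Adj], 0 < n →
    ∃ s : Finset (Fin n), G.IsIndepSet s ∧
      Real.exp (c * Real.log n ^ c) ≤ (((G.adjMatrix ℝ).rank : ℝ) + 1) * s.card

end Pool.Agent.Helper25.LRT
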