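import Pool.Agent.Helper25.LRT.Transport

/-!
The doubling step of Kotlov and Lovász.
-/

namespace Pool.Agent.Helper25.LRT

open Finset Matrix Pool.Agent.Helper26

/-- Every vertex `v` gets a twin `(v, true)`, and there are new adjacent vertices `inr true` and
`inr false`, the first one adjacent to all the vertices `(v, true)`. -/
def dbl {V : Type*} (G : SimpleGraph V) : SimpleGraph ((V × Bool) ⊕ Bool) where
  Adj i j := match i, j with
    | Sum.inl u, Sum.inl v => G.Adj u.1 v.1
    | Sum.inl u, Sum.inr b => u.2 = true ∧ b = true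
    | Sum.inr a, Sum.inl v => v.2 = true ∧ a = true
    | Sum.inr a, Sum.inr b => a ≠ b
  symm := ⟨by
    rintro (u | a) (v | b) h
    · exact SimpleGraph.Adj.symm h
    · exact h
    · exact h
    · exact Ne.symm h⟩
  loopless := ⟨by
    rintro (u | a) h
    · exact G.loopless.irrefl u.1 h
    · exact h rfl⟩

variable {V : Type*} (G : SimpleGraph V)

instance [DecidableRel G.Adj] : DecidableRel (dbl G).Adj := by
  intro i j
  rcases i with u | a <;> rcases j with v | b
  · exact inferInstanceAs (Decidable (G.Adj u.1 v.1))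
  · exact inferInstanceAs (Decidable (u.2 = true ∧ b = true))
  · exact inferInstanceAs (Decidable (v.2 = true ∧ a = true))
  · exact inferInstanceAs (Decidable (a ≠ b))

@[simp] theorem dbl_ll (u v : V × Bool) :
    (dbl G).Adj (Sum.inl u) (Sum.inl v) ↔ G.Adj u.1 v.1 := Iff.rfl
@[simp] theorem dbl_lr (u : V × Bool) (b : Bool) :
    (dbl G).Adj (Sum.inl u) (Sum.inr b) ↔ u.2 = true ∧ b = true := Iff.rfl
@[simp] theorem dbl_rl (a : Bool) (v : V × Bool) :
    (dbl G).Adj (Sum.inr a) (Sum.inl v) ↔ v.2 = true ∧ a = true := Iff.rfl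
@[simp] theorem dbl_rr (a b : Bool) : (dbl G).Adj (Sum.inr a) (Sum.inr b) ↔ a ≠ b := Iff.rfl

theorem dbl_nb (h : ∀ v, ∃ w, G.Adj v w) (x : (V × Bool) ⊕ Bool) : ∃ y, (dbl G).Adj x y := by
  rcases x with u | a
  · obtain ⟨w, hw⟩ := h u.1
    exact ⟨Sum.inl (w, true), hw⟩
  · exact ⟨Sum.inr (!a), by simp⟩

theorem dbl_connected (h : ∀ v, ∃ w, G.Adj v w) : (dbl G).Connected := by
  rw [SimpleGraph.connected_iff_exists_forall_reachable]
  refine ⟨Sum.inr true, ?_⟩
  have h1 : ∀ v : V, (dbl G).Reachable (Sum.inr true) (Sum.inl (v, true)) := by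
    intro v
    apply SimpleGraph.Adj.reachable
    exact ⟨rfl, rfl⟩
  rintro (⟨v, s⟩ | b)
  · obtain ⟨w, hw⟩ := h v
    refine (h1 w).trans (SimpleGraph.Adj.reachable ?_)
    exact hw.symm
  · cases b
    · apply SimpleGraph.Adj.reachable
      simp
    · rfl

theorem dbl_tf (hG : TF G) (h : ∀ v, ∃ w, G.Adj v w) : TF (dbl G) := by
  rintro (⟨u, s⟩ | a) (⟨v, t⟩ | b) hne hadj hN
  · have ht : (Sum.inr true ∈ (dbl G).neighborSet (Sum.inl (u, s))) ↔
        (Sum.inr true ∈ (dbl G).neighborSet (Sum.inl (v, t))) := by rw [hN]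
    have hst : s = t := by
      rw [SimpleGraph.mem_neighborSet, SimpleGraph.mem_neighborSet] at ht
      simp only [dbl_lr, and_true] at ht
      cases s <;> cases t <;> simp_all
    subst hst
    apply hG u v (fun huv => hne (by rw [huv])) hadj
    ext w
    have h1 : (Sum.inl (w, true) ∈ (dbl G).neighborSet (Sum.inl (u, s))) ↔
        (Sum.inl (w, true) ∈ (dbl G).neighborSet (Sum.inl (v, s))) := by rw [hN]
    exact h1
  · cases b
    · obtain ⟨w, hw⟩ := h u
      have h1 : Sum.inl (w, true) ∈ (dbl G).neighborSet (Sum.inl (u, s)) := hw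
      rw [hN] at h1
      exact Bool.noConfusion h1.2
    · have h1 : Sum.inr false ∈ (dbl G).neighborSet (Sum.inr true) := by
        rw [SimpleGraph.mem_neighborSet]; simp
      rw [← hN] at h1
      exact Bool.noConfusion h1.2
  · cases a
    · obtain ⟨w, hw⟩ := h v
      have h1 : Sum.inl (w, true) ∈ (dbl G).neighborSet (Sum.inl (v, t)) := hw
      rw [← hN] at h1
      exact Bool.noConfusion h1.2
    · have h1 : Sum.inr false ∈ (dbl G).neighborSet (Sum.inr true) := by
        rw [SimpleGraph.mem_neighborSet]; simp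
      rw [hN] at h1
      exact Bool.noConfusion h1.2
  · exact hadj (fun hab => hne (by rw [hab]))

/-- The copy of `G`. -/
def dblHom : G →g dbl G where
  toFun v := Sum.inl (v, true)
  map_rel' h := h

theorem dbl_card [Fintype V] : Fintype.card ((V × Bool) ⊕ Bool) = 2 * Fintype.card V + 2 := by
  rw [Fintype.card_sum, Fintype.card_prod, Fintype.card_bool]
  ring

theorem dbl_rank [Fintype V] [DecidableEq V] [DecidableRel G.Adj] :
    ((dbl G).adjMatrix ℝ).rank ≤ (G.adjMatrix ℝ).rank + 2 := by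
  let R : Matrix ((V × Bool) ⊕ Bool) V ℝ :=
    Matrix.of fun i u => Sum.elim (fun p => if p.1 = u then 1 else 0) (fun _ => 0) i
  let x : (V × Bool) ⊕ Bool → ℝ := Sum.elim (fun _ => 0) (fun b => if b then 1 else 0)
  let y : (V × Bool) ⊕ Bool → ℝ :=
    Sum.elim (fun p => if p.2 then 1 else 0) (fun b => if b then 0 else 1)
  have h : (dbl G).adjMatrix ℝ = R * G.adjMatrix ℝ * Rᵀ + vecMulVec x y + vecMulVec y x := by
    ext i j
    rw [Matrix.add_apply, Matrix.add_apply, Matrix.mul_apply]
    simp only [Matrix.mul_apply]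
    rcases i with ⟨u, s⟩ | a <;> rcases j with ⟨v, t⟩ | b
    · simp only [R, x, y, vecMulVec_apply, SimpleGraph.adjMatrix_apply, dbl_ll, of_apply,
        transpose_apply, Sum.elim_inl, mul_zero, zero_mul, add_zero]
      rw [Finset.sum_eq_single v]
      · rw [if_pos rfl, mul_one, Finset.sum_eq_single u]
        · rw [if_pos rfl, one_mul]
        · intro w _ hw
          rw [if_neg (Ne.symm hw), zero_mul]
        · intro h
          exact absurd (mem_univ _) h
      · intro w _ hw
        rw [if_neg (Ne.symm hw), mul_zero]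
      · intro h
        exact absurd (mem_univ _) h
    · cases s <;> cases b <;>
        simp [R, x, y, vecMulVec_apply, SimpleGraph.adjMatrix_apply]
    · cases a <;> cases t <;>
        simp [R, x, y, vecMulVec_apply, SimpleGraph.adjMatrix_apply]
    · cases a <;> cases b <;>
        simp [R, x, y, vecMulVec_apply, SimpleGraph.adjMatrix_apply]
  rw [h]
  have h1 : (R * G.adjMatrix ℝ * Rᵀ).rank ≤ (G.adjMatrix ℝ).rank :=
    (rank_mul_le_left _ _).trans (rank_mul_le_right _ _)
  have h2 := rank_vecMulVec_le x y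
  have h3 := rank_vecMulVec_le y x
  have h4 := rank_add_le (R * G.adjMatrix ℝ * Rᵀ) (vecMulVec x y)
  have h5 := rank_add_le (R * G.adjMatrix ℝ * Rᵀ + vecMulVec x y) (vecMulVec y x)
  omega

/-- `k` doubling steps. -/
theorem dbl_iter {n : ℕ} (G : SimpleGraph (Fin n)) [DecidableRel G.Adj]
    (hnb : ∀ v, ∃ w, G.Adj v w) (hconn : G.Connected) (htf : TF G) (k : ℕ) :
    ∃ (n' : ℕ) (G' : SimpleGraph (Fin n')) (_ : DecidableRel G'.Adj),
      (∀ v, ∃ w, G'.Adj v w) ∧ G'.Connected ∧ TF G' ∧
      (G'.adjMatrix ℝ).rank ≤ (G.adjMatrix ℝ).rank + 2 * k ∧ 2 ^ k * n ≤ n' ∧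
      G.chromaticNumber ≤ G'.chromaticNumber := by
  induction k with
  | zero => exact ⟨n, G, inferInstance, hnb, hconn, htf, by omega, by omega, le_rfl⟩
  | succ k ih =>
    obtain ⟨n', G', hdec, hnb', hconn', htf', hrk', hcard', hchi'⟩ := ih
    refine ⟨Fintype.card ((Fin n' × Bool) ⊕ Bool), fin (dbl G'), inferInstance,
      fin_nb _ (dbl_nb G' hnb'), fin_connected _ (dbl_connected G' hnb'),
      fin_tf _ (dbl_tf G' htf' hnb'), ?_, ?_, ?_⟩
    · rw [fin_rank]
      have := dbl_rank G'
      omega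
    · rw [dbl_card, Fintype.card_fin, pow_succ]
      nlinarith
    · rw [fin_chi]
      exact hchi'.trans (SimpleGraph.chromaticNumber_mono_of_hom (dblHom G'))

end Pool.Agent.Helper25.LRT
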