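import Mathlib

/-!
Real inequalities.
-/

namespace Pool.Agent.Helper25.LRT

theorem rpow_le_mul {a b L : ℝ} (hL : Real.log 2 ≤ L) (hab : a ≤ b) :
    L ^ a ≤ Real.log 2 ^ (a - b) * L ^ b := by
  have h2 : 0 < Real.log 2 := Real.log_pos (by norm_num)
  have hL0 : 0 < L := lt_of_lt_of_le h2 hL
  have h1 : L ^ a = L ^ (a - b) * L ^ b := by
    rw [← Real.rpow_add hL0]
    congr 1
    ring
  rw [h1]
  apply mul_le_mul_of_nonneg_right _ (Real.rpow_nonneg hL0.le _)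
  exact Real.rpow_le_rpow_of_nonpos h2 hL (by linarith)

theorem log_two_le_log {r : ℕ} (hr : 2 ≤ r) : Real.log 2 ≤ Real.log r :=
  Real.log_le_log (by norm_num) (by exact_mod_cast hr)

theorem log_R (γ : ℝ) : ∃ D : ℝ, 0 ≤ D ∧ ∀ r R : ℕ, 2 ≤ r → 1 ≤ R →
    (R : ℝ) ≤ r + 2 * (Real.exp ((2 * Real.log r) ^ (1 / γ)) + 3) →
    Real.log R ≤ D * Real.log r ^ (max 1 (1 / γ)) := by
  have h2 : 0 < Real.log 2 := Real.log_pos (by norm_num)
  refine ⟨5 * Real.log 2 ^ (1 - max 1 (1 / γ)) +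
    2 ^ (1 / γ) * Real.log 2 ^ (1 / γ - max 1 (1 / γ)), by positivity, ?_⟩
  intro r R hr hR h
  have hL := log_two_le_log hr
  set L := Real.log r with hLdef
  have hL0 : 0 < L := lt_of_lt_of_le h2 hL
  have hr0 : (0 : ℝ) < r := by positivity
  have hR0 : (0 : ℝ) < R := by exact_mod_cast hR
  set X := (2 * L) ^ (1 / γ) with hX
  have hX0 : 0 ≤ X := Real.rpow_nonneg (by linarith) _
  have h3 : (R : ℝ) ≤ 9 * Real.exp (L + X) := by
    have e1 : (r : ℝ) = Real.exp L := (Real.exp_log hr0).symm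
    have e2 : Real.exp L ≤ Real.exp (L + X) := Real.exp_le_exp.2 (by linarith)
    have e3 : Real.exp X ≤ Real.exp (L + X) := Real.exp_le_exp.2 (by linarith)
    have e4 : 1 ≤ Real.exp (L + X) := Real.one_le_exp (by linarith)
    rw [e1] at h
    linarith
  have h4 : Real.log R ≤ Real.log 9 + (L + X) := by
    have := Real.log_le_log hR0 h3
    rwa [Real.log_mul (by norm_num) (Real.exp_pos _).ne', Real.log_exp] at this
  have h5 : Real.log 9 ≤ 4 * L := by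
    have : Real.log 9 ≤ Real.log (2 ^ 4) := Real.log_le_log (by norm_num) (by norm_num)
    rw [Real.log_pow] at this
    push_cast at this
    linarith
  have h6 : L ≤ Real.log 2 ^ (1 - max 1 (1 / γ)) * L ^ (max 1 (1 / γ)) := by
    have := rpow_le_mul hL (le_max_left 1 (1 / γ))
    rwa [Real.rpow_one] at this
  have h7 : L ^ (1 / γ) ≤ Real.log 2 ^ (1 / γ - max 1 (1 / γ)) * L ^ (max 1 (1 / γ)) :=
    rpow_le_mul hL (le_max_right 1 (1 / γ))
  have h8 : X = 2 ^ (1 / γ) * L ^ (1 / γ) := by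
    rw [hX, Real.mul_rpow (by norm_num) hL0.le]
  have h9 : (0 : ℝ) < 2 ^ (1 / γ) := Real.rpow_pos_of_pos (by norm_num) _
  calc Real.log R ≤ 5 * L + X := by linarith
    _ ≤ 5 * (Real.log 2 ^ (1 - max 1 (1 / γ)) * L ^ (max 1 (1 / γ))) +
        2 ^ (1 / γ) * (Real.log 2 ^ (1 / γ - max 1 (1 / γ)) * L ^ (max 1 (1 / γ))) := by
        rw [h8]
        exact add_le_add (mul_le_mul_of_nonneg_left h6 (by norm_num))
          (mul_le_mul_of_nonneg_left h7 h9.le)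
    _ = _ := by ring

/-- The final estimate. -/
theorem final_bound {c C D κ : ℝ} (hc : 0 < c) (hD : 0 ≤ D) :
    ∀ L Λ y : ℝ, Real.log 2 ≤ L → 0 ≤ Λ → Λ ≤ D * L ^ κ → y ≤ 5 * L + C * Λ ^ c →
      y ≤ (5 * Real.log 2 ^ (1 - max 1 (κ * c)) +
        |C| * D ^ c * Real.log 2 ^ (κ * c - max 1 (κ * c))) * L ^ (max 1 (κ * c)) := by
  intro L Λ y hL hΛ hΛ2 hy
  have h2 : 0 < Real.log 2 := Real.log_pos (by norm_num)
  have hL0 : 0 < L := lt_of_lt_of_le h2 hL
  have h1 : C * Λ ^ c ≤ |C| * (D ^ c * L ^ (κ * c)) := by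
    calc C * Λ ^ c ≤ |C| * Λ ^ c :=
          mul_le_mul_of_nonneg_right (le_abs_self C) (Real.rpow_nonneg hΛ _)
      _ ≤ |C| * (D * L ^ κ) ^ c := by
          apply mul_le_mul_of_nonneg_left _ (abs_nonneg C)
          exact Real.rpow_le_rpow hΛ hΛ2 hc.le
      _ = _ := by rw [Real.mul_rpow hD (Real.rpow_nonneg hL0.le _), ← Real.rpow_mul hL0.le]
  have h3 : L ≤ Real.log 2 ^ (1 - max 1 (κ * c)) * L ^ (max 1 (κ * c)) := by
    have := rpow_le_mul hL (le_max_left 1 (κ * c))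
    rwa [Real.rpow_one] at this
  have h4 := rpow_le_mul hL (le_max_right 1 (κ * c))
  have h5 : (0 : ℝ) ≤ D ^ c := Real.rpow_nonneg hD _
  calc y ≤ 5 * L + C * Λ ^ c := hy
    _ ≤ 5 * L + |C| * (D ^ c * L ^ (κ * c)) := by linarith
    _ ≤ 5 * (Real.log 2 ^ (1 - max 1 (κ * c)) * L ^ (max 1 (κ * c))) +
        |C| * (D ^ c * (Real.log 2 ^ (κ * c - max 1 (κ * c)) * L ^ (max 1 (κ * c)))) := by
        refine add_le_add (mul_le_mul_of_nonneg_left h3 (by norm_num))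
          (mul_le_mul_of_nonneg_left (mul_le_mul_of_nonneg_left h4 h5) (abs_nonneg C))
    _ = _ := by ring

end Pool.Agent.Helper25.LRT
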