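import Pool.Agent.Helper26.HFree

/-!
The join of a graph with a complete graph.
-/

namespace Pool.Agent.Helper25.LRT

open Finset Matrix Pool.Agent.Helper26

/-- Twin-free graphs. -/
def TF {V : Type*} (G : SimpleGraph V) : Prop :=
  ∀ u v : V, u ≠ v → ¬ G.Adj u v → G.neighborSet u ≠ G.neighborSet v

/-- The join of `H` with the complete graph on `Fin m`. -/
def joinK {W : Type*} (H : SimpleGraph W) (m : ℕ) : SimpleGraph (W ⊕ Fin m) where
  Adj i j := match i, j with
    | Sum.inl u, Sum.inl v => H.Adj u v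
    | Sum.inl _, Sum.inr _ => True
    | Sum.inr _, Sum.inl _ => True
    | Sum.inr a, Sum.inr b => a ≠ b
  symm := ⟨by
    rintro (u | a) (v | b) h
    · exact SimpleGraph.Adj.symm h
    · trivial
    · trivial
    · exact Ne.symm h⟩
  loopless := ⟨by
    rintro (u | a) h
    · exact H.loopless.irrefl u h
    · exact h rfl⟩

variable {W : Type*} [Fintype W] [DecidableEq W] (H : SimpleGraph W) [DecidableRel H.Adj] (m : ℕ)

instance : DecidableRel (joinK H m).Adj := by
  intro i j
  rcases i with u | a <;> rcases j with v | b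
  · exact inferInstanceAs (Decidable (H.Adj u v))
  · exact inferInstanceAs (Decidable True)
  · exact inferInstanceAs (Decidable True)
  · exact inferInstanceAs (Decidable (a ≠ b))

omit [Fintype W] [DecidableEq W] [DecidableRel H.Adj]

@[simp] theorem adj_ll (u v : W) : (joinK H m).Adj (Sum.inl u) (Sum.inl v) ↔ H.Adj u v := Iff.rfl
@[simp] theorem adj_lr (u : W) (b : Fin m) : (joinK H m).Adj (Sum.inl u) (Sum.inr b) ↔ True :=
  Iff.rfl
@[simp] theorem adj_rl (a : Fin m) (v : W) : (joinK H m).Adj (Sum.inr a) (Sum.inl v) ↔ True :=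
  Iff.rfl
@[simp] theorem adj_rr (a b : Fin m) : (joinK H m).Adj (Sum.inr a) (Sum.inr b) ↔ a ≠ b := Iff.rfl

theorem join_connected (hm : 0 < m) : (joinK H m).Connected := by
  apply SimpleGraph.Connected.of_isUniversal (v := Sum.inr ⟨0, hm⟩)
  intro w hw
  rcases w with u | b
  · trivial
  · exact fun h => hw (by rw [h])

theorem join_tf (hH : TF H) : TF (joinK H m) := by
  rintro (u | a) (v | b) hne hadj hN
  · apply hH u v (fun h => hne (by rw [h])) hadj
    ext w
    have h1 : (Sum.inl w : W ⊕ Fin m) ∈ (joinK H m).neighborSet (Sum.inl u) ↔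
        (Sum.inl w : W ⊕ Fin m) ∈ (joinK H m).neighborSet (Sum.inl v) := by rw [hN]
    exact h1
  · exact hadj trivial
  · exact hadj trivial
  · exact hadj (fun h => hne (by rw [h]))

theorem join_indep {k : ℕ} (hk : 1 ≤ k)
    (h : ∀ I : Finset W, (∀ u ∈ I, ∀ v ∈ I, ¬ H.Adj u v) → #I ≤ k) (s : Finset (W ⊕ Fin m))
    (hs : ∀ u ∈ s, ∀ v ∈ s, ¬ (joinK H m).Adj u v) : #s ≤ k := by
  classical
  by_cases hr : ∃ a : Fin m, Sum.inr a ∈ s
  · obtain ⟨a, ha⟩ := hr
    have hsub : s ⊆ {Sum.inr a} := by
      intro x hx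
      rw [mem_singleton]
      rcases x with u | b
      · exact absurd trivial (hs _ ha _ hx)
      · by_contra hne
        exact hs _ ha _ hx (fun h => hne (by rw [h]))
    have := card_le_card hsub
    rw [card_singleton] at this
    omega
  · push Not at hr
    have hc : #s ≤ #(s.preimage (Sum.inl : W → W ⊕ Fin m) Sum.inl_injective.injOn) := by
      rw [card_preimage]
      apply card_le_card
      intro x hx
      rw [mem_filter]
      refine ⟨hx, ?_⟩
      rcases x with u | b
      · exact ⟨u, rfl⟩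
      · exact absurd hx (hr b)
    refine hc.trans (h _ ?_)
    intro u hu v hv hadj
    exact hs _ (mem_preimage.1 hu) _ (mem_preimage.1 hv) hadj

variable [Fintype W] [DecidableEq W] [DecidableRel H.Adj]

theorem join_rank_le :
    ((joinK H m).adjMatrix ℝ).rank ≤ (H.adjMatrix ℝ).rank + m + 1 := by
  let R : Matrix (W ⊕ Fin m) W ℝ := Matrix.of fun i u => if i = Sum.inl u then 1 else 0
  let P : Matrix (W ⊕ Fin m) (Fin m) ℝ := Matrix.of fun i k => if i = Sum.inr k then 1 else 0
  let B : Matrix (Fin m) (W ⊕ Fin m) ℝ := ((joinK H m).adjMatrix ℝ).submatrix Sum.inr id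
  let x : W ⊕ Fin m → ℝ := Sum.elim (fun _ => 1) (fun _ => 0)
  let y : W ⊕ Fin m → ℝ := Sum.elim (fun _ => 0) (fun _ => 1)
  have h : (joinK H m).adjMatrix ℝ = R * H.adjMatrix ℝ * Rᵀ + P * B + vecMulVec x y := by
    ext i j
    rw [Matrix.add_apply, Matrix.add_apply, Matrix.mul_apply, Matrix.mul_apply]
    simp only [Matrix.mul_apply]
    rcases i with u | a <;> rcases j with v | b
    · simp only [R, P, B, x, y, vecMulVec_apply, SimpleGraph.adjMatrix_apply, adj_ll, of_apply,
        transpose_apply, Sum.inl.injEq, reduceCtorEq, if_false, zero_mul, sum_const_zero,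
        Sum.elim_inl, mul_zero, add_zero, mul_ite, mul_one]
      rw [Finset.sum_eq_single v]
      · rw [if_pos rfl, Finset.sum_eq_single u]
        · rw [if_pos rfl]
        · intro w _ hw
          rw [if_neg (Ne.symm hw)]
          simp
        · intro h
          exact absurd (mem_univ _) h
      · intro w _ hw
        rw [if_neg (Ne.symm hw)]
      · intro h
        exact absurd (mem_univ _) h
    · simp [R, P, B, x, y, vecMulVec_apply, SimpleGraph.adjMatrix_apply]
    · simp [R, P, B, x, y, vecMulVec_apply, SimpleGraph.adjMatrix_apply]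
    · simp only [R, P, B, x, y, vecMulVec_apply, SimpleGraph.adjMatrix_apply, adj_rr, of_apply,
        transpose_apply, Sum.inr.injEq, reduceCtorEq, if_false, zero_mul, sum_const_zero,
        Sum.elim_inr, mul_zero, add_zero, zero_add, submatrix_apply, id_eq]
      rw [Finset.sum_eq_single a]
      · rw [if_pos rfl, one_mul]
      · intro w _ hw
        rw [if_neg (Ne.symm hw), zero_mul]
      · intro h
        exact absurd (mem_univ _) h
  rw [h]
  refine (rank_add_le _ _).trans (add_le_add ((rank_add_le _ _).trans (add_le_add ?_ ?_))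
    (rank_vecMulVec_le _ _))
  · exact (rank_mul_le_left _ _).trans (rank_mul_le_right _ _)
  · refine (rank_mul_le_left _ _).trans ?_
    have := P.rank_le_card_width
    rwa [Fintype.card_fin] at this

omit [DecidableEq W] in
theorem le_join_rank : m ≤ ((joinK H m).adjMatrix ℝ).rank + 1 := by
  let B : Matrix (Fin m) (Fin m) ℝ := ((joinK H m).adjMatrix ℝ).submatrix Sum.inr Sum.inr
  have h : (1 : Matrix (Fin m) (Fin m) ℝ) = (Matrix.of fun _ _ => (1 : ℝ)) - B := by
    ext i j
    by_cases hij : i = j
    · subst hij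
      simp [B, SimpleGraph.adjMatrix_apply]
    · simp [B, hij, SimpleGraph.adjMatrix_apply]
  have h1 : (1 : Matrix (Fin m) (Fin m) ℝ).rank = m := by
    rw [Matrix.rank_one, Fintype.card_fin]
  have h2 : ((Matrix.of fun _ _ => (1 : ℝ)) - B).rank ≤
      (Matrix.of fun (_ : Fin m) (_ : Fin m) => (1 : ℝ)).rank + B.rank := rank_sub_le _ _
  rw [← h, h1] at h2
  have h3 := rank_const_le (m := Fin m) (n := Fin m) (1 : ℝ)
  have h4 : B.rank ≤ ((joinK H m).adjMatrix ℝ).rank := rank_submatrix_le _ _ _
  omega

end Pool.Agent.Helper25.LRT
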