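import Pool.Agent.Helper25.LRT.Struct
import Pool.Agent.Helper25.LRT.Join

/-!
The induced subgraph of the structure theorem can be made twin-free.
-/

namespace Pool.Agent.Helper25.LRT

open Finset Matrix Pool.Agent.Helper26

variable {V : Type*} [Fintype V] [DecidableEq V] (G : SimpleGraph V) [DecidableRel G.Adj]

theorem reduce {r : ℕ} (hr : 2 ≤ r) (hrk : (G.adjMatrix ℝ).rank ≤ r)
    (hn : Fintype.card V ≤ 2 ^ r) :
    ∃ W : Finset V, TF (G.comap (Subtype.val : W → V)) ∧
      G.chromaticNumber.toNat ≤ 8 * (r ^ 2 * #W) ∧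
      (∀ I : Finset W, (∀ u ∈ I, ∀ v ∈ I, ¬ (G.comap (Subtype.val : W → V)).Adj u v) →
        #I ≤ r ^ 2) ∧
      ((G.comap (Subtype.val : W → V)).adjMatrix ℝ).rank ≤ (G.adjMatrix ℝ).rank := by
  classical
  obtain ⟨S, hS, hind⟩ := structure_thm G hr hrk hn
  let f : V → Finset V := fun v => S.filter fun w => G.Adj v w
  obtain ⟨W, hWS, hinj, himg⟩ := Finset.exists_subset_injOn_image_eq_of_surjOn (f := f)
    (S : Set V) (S.image f) (by
      intro y hy
      rw [Finset.coe_image] at hy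
      exact hy)
  have hWS' : W ⊆ S := by exact_mod_cast hWS
  refine ⟨W, ?_, ?_, ?_, ?_⟩
  · intro u v huv _ hN
    apply huv
    apply Subtype.ext
    apply hinj u.2 v.2
    ext z
    simp only [f, mem_filter]
    constructor
    · rintro ⟨hz, hadj⟩
      refine ⟨hz, ?_⟩
      have h1 : f z ∈ W.image f := by rw [himg]; exact mem_image_of_mem f hz
      obtain ⟨z0, hz0, hz0'⟩ := mem_image.1 h1
      have h2 : u.1 ∈ f z0 := by rw [hz0']; exact mem_filter.2 ⟨hWS' u.2, hadj.symm⟩
      have h3 : (⟨z0, hz0⟩ : W) ∈ (G.comap (Subtype.val : W → V)).neighborSet u :=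
        (mem_filter.1 h2).2.symm
      rw [hN] at h3
      have h4 : G.Adj v.1 z0 := h3
      have h5 : v.1 ∈ f z0 := mem_filter.2 ⟨hWS' v.2, h4.symm⟩
      rw [hz0'] at h5
      exact (mem_filter.1 h5).2.symm
    · rintro ⟨hz, hadj⟩
      refine ⟨hz, ?_⟩
      have h1 : f z ∈ W.image f := by rw [himg]; exact mem_image_of_mem f hz
      obtain ⟨z0, hz0, hz0'⟩ := mem_image.1 h1
      have h2 : v.1 ∈ f z0 := by rw [hz0']; exact mem_filter.2 ⟨hWS' v.2, hadj.symm⟩
      have h3 : (⟨z0, hz0⟩ : W) ∈ (G.comap (Subtype.val : W → V)).neighborSet v :=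
        (mem_filter.1 h2).2.symm
      rw [← hN] at h3
      have h4 : G.Adj u.1 z0 := h3
      have h5 : u.1 ∈ f z0 := mem_filter.2 ⟨hWS' u.2, h4.symm⟩
      rw [hz0'] at h5
      exact (mem_filter.1 h5).2.symm
  · have h1 : #S ≤ r ^ 2 * #(S.image f) := by
      apply card_le_mul_card_image
      intro a _
      apply le_of_lt
      apply hind _ (filter_subset _ _)
      intro u hu v hv hadj
      obtain ⟨huS, hu⟩ := mem_filter.1 hu
      obtain ⟨hvS, hv⟩ := mem_filter.1 hv
      have h2 : v ∈ f u := mem_filter.2 ⟨hvS, hadj⟩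
      rw [hu, ← hv] at h2
      exact G.loopless.irrefl v (mem_filter.1 h2).2
    have h2 : #(S.image f) = #W := by
      rw [← himg, card_image_of_injOn hinj]
    rw [h2] at h1
    omega
  · intro I hI
    have h1 : #(I.map ⟨Subtype.val, Subtype.val_injective⟩) < r ^ 2 := by
      apply hind
      · intro x hx
        obtain ⟨y, _, rfl⟩ := mem_map.1 hx
        exact hWS' y.2
      · intro u hu v hv hadj
        obtain ⟨u', hu', rfl⟩ := mem_map.1 hu
        obtain ⟨v', hv', rfl⟩ := mem_map.1 hv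
        exact hI u' hu' v' hv' hadj
    rw [card_map] at h1
    exact h1.le
  · exact rank_submatrix_le (G.adjMatrix ℝ) (Subtype.val : W → V) (Subtype.val : W → V)

end Pool.Agent.Helper25.LRT
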