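import Pool.Agent.Helper25.LRT.Defs
import Pool.Agent.Helper25.LRT.Num
import Pool.Agent.Helper25.LRT.Reduce
import Pool.Agent.Helper25.LRT.Double

/-!
Equivalent forms of the graph form of the log-rank conjecture.
-/

namespace Pool.Agent.Helper25.LRT

open Finset Matrix Pool.Agent.Helper26

theorem card_le_two_pow {V : Type*} [Fintype V] [DecidableEq V] (G : SimpleGraph V)
    [DecidableRel G.Adj] (hG : TF G) : Fintype.card V ≤ 2 ^ (G.adjMatrix ℝ).rank := by
  have h1 := card_rows_le (G.adjMatrix ℝ) (fun i j => by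
    rw [SimpleGraph.adjMatrix_apply]; split_ifs <;> simp)
  have hinj : Function.Injective (G.adjMatrix ℝ).row := by
    intro u v huv
    by_contra hne
    have hadj : ∀ w, G.Adj u w ↔ G.Adj v w := by
      intro w
      have h2 : (G.adjMatrix ℝ) u w = (G.adjMatrix ℝ) v w := congrFun huv w
      rw [SimpleGraph.adjMatrix_apply, SimpleGraph.adjMatrix_apply] at h2
      by_cases ha : G.Adj u w <;> by_cases hb : G.Adj v w <;> simp [ha, hb] at h2 ⊢
    apply hG u v hne
    · intro h3
      exact G.loopless.irrefl v ((hadj v).1 h3)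
    · ext w
      exact hadj w
  have h2 : (Set.range (G.adjMatrix ℝ).row).ncard = Fintype.card V := by
    rw [← Set.image_univ, Set.ncard_image_of_injective _ hinj, Set.ncard_univ,
      Nat.card_eq_fintype_card]
  rwa [h2] at h1

/-- Admissible graphs of rank `r` without independent sets of more than `exp ((log r) ^ γ)`
vertices have at most `exp (C (log r) ^ c)` vertices. -/
def Ramsey (γ : ℝ) : Prop :=
  ∃ c : ℝ, 0 < c ∧ ∃ C : ℝ, ∀ (n : ℕ) (G : SimpleGraph (Fin n)) [DecidableRel G.Adj],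
    Admissible G →
    (∀ s : Finset (Fin n), G.IsIndepSet s →
      (s.card : ℝ) ≤ Real.exp (Real.log (G.adjMatrix ℝ).rank ^ γ)) →
      Real.log n ≤ C * Real.log (G.adjMatrix ℝ).rank ^ c

/-- The number of vertices is at most the chromatic number times the independence number. -/
theorem card_le_chi_mul {n : ℕ} (G : SimpleGraph (Fin n)) {B : ℝ}
    (h : ∀ s : Finset (Fin n), G.IsIndepSet s → (s.card : ℝ) ≤ B) :
    (n : ℝ) ≤ B * G.chromaticNumber.toNat := by
  classical
  have hcol := G.colorable_chromaticNumber_of_fintype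
  obtain ⟨C⟩ := hcol
  have h1 : n = ∑ i : Fin G.chromaticNumber.toNat, #{v : Fin n | C v = i} := by
    have := card_eq_sum_card_fiberwise (s := (univ : Finset (Fin n)))
      (t := (univ : Finset (Fin G.chromaticNumber.toNat))) (f := fun v => C v)
      (fun v _ => mem_univ _)
    rwa [card_univ, Fintype.card_fin] at this
  have h2 : (n : ℝ) = ∑ i : Fin G.chromaticNumber.toNat, (#{v : Fin n | C v = i} : ℝ) := by
    conv_lhs => rw [h1]
    push_cast
    rfl
  rw [h2]
  calc ∑ i : Fin G.chromaticNumber.toNat, (#{v : Fin n | C v = i} : ℝ)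
      ≤ ∑ _i : Fin G.chromaticNumber.toNat, B := by
        apply sum_le_sum
        intro i _
        apply h
        intro u hu v hv _ hadj
        rw [mem_coe, mem_filter] at hu hv
        exact C.valid hadj (hu.2.trans hv.2.symm)
    _ = _ := by rw [sum_const, card_univ, Fintype.card_fin, nsmul_eq_mul, mul_comm]

theorem ramsey_of_small {γ : ℝ} (h : LogRankSmallAlpha γ) : Ramsey γ := by
  obtain ⟨c, hc, C, hC⟩ := h
  have h2 : 0 < Real.log 2 := Real.log_pos (by norm_num)
  refine ⟨max c γ, lt_max_of_lt_left hc,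
    |C| * Real.log 2 ^ (c - max c γ) + Real.log 2 ^ (γ - max c γ), fun n G _ hG hind => ?_⟩
  have hr : 2 ≤ (G.adjMatrix ℝ).rank := hG.2.2
  have hL := log_two_le_log hr
  have hchi := hC n G hG hind
  have h3 := card_le_chi_mul G hind
  set L := Real.log ((G.adjMatrix ℝ).rank : ℝ) with hLdef
  have hL0 : 0 < L := lt_of_lt_of_le h2 hL
  have hn : (0 : ℝ) < n := by
    have hne : Nonempty (Fin n) := hG.1.nonempty
    exact_mod_cast (Fin.pos_iff_nonempty.2 hne)
  have hchi0 : (0 : ℝ) < G.chromaticNumber.toNat := by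
    rcases Nat.eq_zero_or_pos G.chromaticNumber.toNat with h0 | h0
    · rw [h0, Nat.cast_zero, mul_zero] at h3
      linarith
    · exact_mod_cast h0
  have h4 := Real.log_le_log hn h3
  rw [Real.log_mul (Real.exp_pos _).ne' hchi0.ne', Real.log_exp] at h4
  have h5 : C * L ^ c ≤ |C| * (Real.log 2 ^ (c - max c γ) * L ^ (max c γ)) := by
    calc C * L ^ c ≤ |C| * L ^ c :=
          mul_le_mul_of_nonneg_right (le_abs_self C) (Real.rpow_nonneg hL0.le _)
      _ ≤ _ := mul_le_mul_of_nonneg_left (rpow_le_mul hL (le_max_left _ _)) (abs_nonneg C)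
  have h6 := rpow_le_mul hL (le_max_right c γ)
  calc Real.log n ≤ L ^ γ + Real.log G.chromaticNumber.toNat := h4
    _ ≤ L ^ γ + C * L ^ c := by linarith
    _ ≤ Real.log 2 ^ (γ - max c γ) * L ^ (max c γ) +
        |C| * (Real.log 2 ^ (c - max c γ) * L ^ (max c γ)) := add_le_add h6 h5
    _ = _ := by ring

theorem saving_of_logRank {γ : ℝ} (h : LogRank) : Saving γ := by
  obtain ⟨c, hc, C, hC⟩ := h
  have h2 : 0 < Real.log 2 := Real.log_pos (by norm_num)
  refine ⟨max c γ, lt_max_of_lt_left hc,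
    |C| * Real.log 2 ^ (c - max c γ) + Real.log 2 ^ (γ - max c γ), fun n G _ hG hn => ?_⟩
  have hr : 2 ≤ (G.adjMatrix ℝ).rank := hG.2.2
  have hL := log_two_le_log hr
  have hchi := hC n G hG
  set L := Real.log ((G.adjMatrix ℝ).rank : ℝ) with hLdef
  have hL0 : 0 < L := lt_of_lt_of_le h2 hL
  have h5 : C * L ^ c ≤ |C| * (Real.log 2 ^ (c - max c γ) * L ^ (max c γ)) := by
    calc C * L ^ c ≤ |C| * L ^ c :=
          mul_le_mul_of_nonneg_right (le_abs_self C) (Real.rpow_nonneg hL0.le _)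
      _ ≤ _ := mul_le_mul_of_nonneg_left (rpow_le_mul hL (le_max_left _ _)) (abs_nonneg C)
  have h6 := rpow_le_mul hL (le_max_right c γ)
  rw [le_div_iff₀ (Real.exp_pos _)]
  rcases Nat.eq_zero_or_pos G.chromaticNumber.toNat with h0 | h0
  · rw [h0]
    simp
  have hchi0 : (0 : ℝ) < G.chromaticNumber.toNat := by exact_mod_cast h0
  calc (G.chromaticNumber.toNat : ℝ) * Real.exp (L ^ γ)
      = Real.exp (Real.log G.chromaticNumber.toNat + L ^ γ) := by
        rw [Real.exp_add, Real.exp_log hchi0]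
    _ ≤ Real.exp ((|C| * Real.log 2 ^ (c - max c γ) + Real.log 2 ^ (γ - max c γ)) *
          L ^ max c γ) := by
        apply Real.exp_le_exp.2
        nlinarith [h5, h6, hchi]
    _ ≤ n := hn

theorem one_lt_log_three {r : ℕ} (hr : 3 ≤ r) : 1 < Real.log r := by
  have h1 : Real.exp 1 < (r : ℝ) := by
    have := Real.exp_one_lt_d9
    have h3 : (3 : ℝ) ≤ r := by exact_mod_cast hr
    linarith
  have h2 := Real.log_lt_log (Real.exp_pos 1) h1
  rwa [Real.log_exp] at h2

theorem ramsey_of_saving {γ : ℝ} (hγ : 0 < γ) (h : Saving γ) : Ramsey (γ / 2) := by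
  obtain ⟨c, hc, C, hC⟩ := h
  have h2 : 0 < Real.log 2 := Real.log_pos (by norm_num)
  refine ⟨c, hc, max C (2 * Real.log 2 ^ (1 - c)), fun n G _ hG hind => ?_⟩
  have hr : 2 ≤ (G.adjMatrix ℝ).rank := hG.2.2
  have hL := log_two_le_log hr
  have hsav := hC n G hG
  have hcard := card_le_two_pow G hG.2.1
  rw [Fintype.card_fin] at hcard
  have hn : (0 : ℝ) < n := by
    have hne : Nonempty (Fin n) := hG.1.nonempty
    exact_mod_cast (Fin.pos_iff_nonempty.2 hne)
  by_cases hr3 : 3 ≤ (G.adjMatrix ℝ).rank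
  · have hL1 := one_lt_log_three hr3
    set L := Real.log ((G.adjMatrix ℝ).rank : ℝ) with hLdef
    have hL0 : 0 < L := by linarith
    by_contra hcon
    push Not at hcon
    have h3 : C * L ^ c ≤ Real.log n := by
      refine le_trans ?_ hcon.le
      exact mul_le_mul_of_nonneg_right (le_max_left _ _) (Real.rpow_nonneg hL0.le _)
    have h4 : Real.exp (C * L ^ c) ≤ n := by
      rw [← Real.exp_log hn]
      exact Real.exp_le_exp.2 h3
    have h5 := hsav h4
    have h6 := card_le_chi_mul G hind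
    rw [le_div_iff₀ (Real.exp_pos _)] at h5
    have h7 : L ^ (γ / 2) < L ^ γ := Real.rpow_lt_rpow_of_exponent_lt hL1 (by linarith)
    have h8 : Real.exp (L ^ (γ / 2)) < Real.exp (L ^ γ) := Real.exp_lt_exp.2 h7
    have h9 : (0 : ℝ) ≤ G.chromaticNumber.toNat := Nat.cast_nonneg _
    rcases h9.eq_or_lt with h0 | h0
    · rw [← h0, mul_zero] at h6
      linarith
    · have h10 : (n : ℝ) < n := by
        calc (n : ℝ) ≤ Real.exp (L ^ (γ / 2)) * G.chromaticNumber.toNat := h6
          _ < Real.exp (L ^ γ) * G.chromaticNumber.toNat := mul_lt_mul_of_pos_right h8 h0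
          _ = G.chromaticNumber.toNat * Real.exp (L ^ γ) := mul_comm _ _
          _ ≤ n := h5
      exact lt_irrefl _ h10
  · have hr2 : (G.adjMatrix ℝ).rank = 2 := by omega
    rw [hr2] at hcard ⊢
    push_cast
    have h3 : Real.log n ≤ 2 * Real.log 2 := by
      have h4 : (n : ℝ) ≤ 2 ^ 2 := by exact_mod_cast hcard
      have h5 := Real.log_le_log hn h4
      rw [Real.log_pow] at h5
      push_cast at h5
      exact h5
    refine h3.trans ?_
    calc 2 * Real.log 2 = 2 * (Real.log 2 ^ (1 - c) * Real.log 2 ^ c) := by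
          rw [← Real.rpow_add h2]
          simp
      _ = (2 * Real.log 2 ^ (1 - c)) * Real.log 2 ^ c := by ring
      _ ≤ _ := mul_le_mul_of_nonneg_right (le_max_right _ _) (Real.rpow_nonneg h2.le _)

/-- Joining with a large complete graph. -/
theorem pad {W : Type*} [Fintype W] [DecidableEq W] (H : SimpleGraph W) [DecidableRel H.Adj]
    (hH : TF H) {m : ℕ} (hm : 0 < m) :
    ∃ (n' : ℕ) (G' : SimpleGraph (Fin n')) (_ : DecidableRel G'.Adj),
      G'.Connected ∧ TF G' ∧ (G'.adjMatrix ℝ).rank ≤ (H.adjMatrix ℝ).rank + m + 1 ∧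
      m ≤ (G'.adjMatrix ℝ).rank + 1 ∧ Fintype.card W ≤ n' ∧
      ∀ k : ℕ, 1 ≤ k → (∀ I : Finset W, (∀ u ∈ I, ∀ v ∈ I, ¬ H.Adj u v) → #I ≤ k) →
        ∀ s : Finset (Fin n'), G'.IsIndepSet s → #s ≤ k := by
  refine ⟨Fintype.card (W ⊕ Fin m), fin (joinK H m), inferInstance,
    fin_connected _ (join_connected H m hm), fin_tf _ (join_tf H m hH), ?_, ?_, ?_, ?_⟩
  · rw [fin_rank]
    exact join_rank_le H m
  · rw [fin_rank]
    exact le_join_rank H m
  · rw [Fintype.card_sum]
    omega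
  · intro k hk hI s hs
    apply fin_indep (joinK H m) (k := k)
    · intro t ht
      exact join_indep H m hk hI t ht
    · intro u hu v hv hadj
      rcases eq_or_ne u v with huv | huv
      · rw [huv] at hadj
        exact (fin (joinK H m)).loopless.irrefl v hadj
      · exact hs hu hv huv hadj

/-- Joining with a large complete graph: the chromatic number does not decrease. -/
theorem pad' {W : Type*} [Fintype W] [DecidableEq W] (H : SimpleGraph W) [DecidableRel H.Adj]
    (hH : TF H) {m : ℕ} (hm : 0 < m) :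
    ∃ (n' : ℕ) (G' : SimpleGraph (Fin n')) (_ : DecidableRel G'.Adj),
      G'.Connected ∧ TF G' ∧ (G'.adjMatrix ℝ).rank ≤ (H.adjMatrix ℝ).rank + m + 1 ∧
      m ≤ (G'.adjMatrix ℝ).rank + 1 ∧ H.chromaticNumber ≤ G'.chromaticNumber := by
  refine ⟨Fintype.card (W ⊕ Fin m), fin (joinK H m), inferInstance,
    fin_connected _ (join_connected H m hm), fin_tf _ (join_tf H m hH), ?_, ?_, ?_⟩
  · rw [fin_rank]
    exact join_rank_le H m
  · rw [fin_rank]
    exact le_join_rank H m
  · rw [fin_chi]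
    exact SimpleGraph.chromaticNumber_mono_of_hom
      (⟨Sum.inl, fun {u v} h => h⟩ : H →g joinK H m)

theorem logRank_of_ramsey {γ : ℝ} (hγ : 0 < γ) (h : Ramsey γ) : LogRank := by
  obtain ⟨c, hc, C, hC⟩ := h
  obtain ⟨D, hD0, hD⟩ := log_R γ
  have h2 : 0 < Real.log 2 := Real.log_pos (by norm_num)
  refine ⟨max 1 (max 1 (1 / γ) * c), by positivity,
    5 * Real.log 2 ^ (1 - max 1 (max 1 (1 / γ) * c)) +
      |C| * D ^ c * Real.log 2 ^ (max 1 (1 / γ) * c - max 1 (max 1 (1 / γ) * c)),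
    fun n G _ hG => ?_⟩
  have hr : 2 ≤ (G.adjMatrix ℝ).rank := hG.2.2
  have hL := log_two_le_log hr
  obtain ⟨W, hW1, hW2, hW3, hW4⟩ := reduce G hr le_rfl (by
    rw [Fintype.card_fin]
    have := card_le_two_pow G hG.2.1
    rwa [Fintype.card_fin] at this)
  generalize hrdef : (G.adjMatrix ℝ).rank = r at hr hL hW2 hW3 hW4 ⊢
  generalize hLdef : Real.log (r : ℝ) = L at hL ⊢
  have hL0 : 0 < L := lt_of_lt_of_le h2 hL
  obtain ⟨X, hX⟩ : ∃ X : ℝ, X = (2 * L) ^ (1 / γ) := ⟨_, rfl⟩
  have hX0 : 0 < X := by rw [hX]; exact Real.rpow_pos_of_pos (by linarith) _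
  obtain ⟨m, hm⟩ : ∃ m : ℕ, m = ⌈Real.exp X⌉₊ + 1 := ⟨_, rfl⟩
  have hm1 : Real.exp X ≤ (m : ℝ) - 1 := by
    rw [hm]
    push_cast
    have := Nat.le_ceil (Real.exp X)
    linarith
  have hm2 : (m : ℝ) ≤ Real.exp X + 2 := by
    rw [hm]
    push_cast
    have := Nat.ceil_lt_add_one (Real.exp_pos X).le
    linarith
  have hm3 : 3 ≤ m := by
    have h3 : (1 : ℝ) < Real.exp X := Real.one_lt_exp_iff.2 hX0
    have h4 : 1 < ⌈Real.exp X⌉₊ := Nat.lt_ceil.2 (by exact_mod_cast h3)
    omega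
  obtain ⟨n', G', hdec, hconn, htf, hRle', hRge, hcard, hindep⟩ := pad _ hW1 (m := m) (by omega)
  generalize hR : (G'.adjMatrix ℝ).rank = R at hRle' hRge
  have hRle : R ≤ r + m + 1 := by omega
  have hRX : Real.exp X ≤ R := by
    have : (m : ℝ) ≤ R + 1 := by exact_mod_cast hRge
    linarith
  have hadm : Admissible G' := ⟨hconn, htf, by rw [hR]; omega⟩
  have hXlog : X ≤ Real.log R := by
    have := Real.log_le_log (Real.exp_pos X) hRX
    rwa [Real.log_exp] at this
  have hmain := hC _ G' hadm (by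
    intro s hs
    rw [hR]
    have h3 : #s ≤ r ^ 2 := hindep (r ^ 2) (Nat.one_le_pow _ _ (by omega)) hW3 s hs
    have hr0 : (0 : ℝ) < r := by positivity
    have h4 : (r : ℝ) ^ 2 = Real.exp (2 * L) := by
      rw [two_mul, Real.exp_add, ← hLdef, Real.exp_log hr0, sq]
    have h5 : 2 * L = X ^ γ := by
      rw [hX, ← Real.rpow_mul (by linarith), one_div, inv_mul_cancel₀ hγ.ne', Real.rpow_one]
    calc (s.card : ℝ) ≤ ((r ^ 2 : ℕ) : ℝ) := by exact_mod_cast h3
      _ = (r : ℝ) ^ 2 := by push_cast; ring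
      _ = Real.exp (X ^ γ) := by rw [h4, h5]
      _ ≤ _ := Real.exp_le_exp.2 (Real.rpow_le_rpow hX0.le hXlog hγ.le))
  rw [hR] at hmain
  have hR1 : 1 ≤ R := by omega
  have hΛ := hD r R hr hR1 (by
    have h3 : (R : ℝ) ≤ r + m + 1 := by exact_mod_cast hRle
    have h4 := Real.exp_pos X
    rw [hLdef, ← hX]
    linarith)
  rw [hLdef] at hΛ
  have hΛ0 : 0 ≤ Real.log (R : ℝ) := hX0.le.trans hXlog
  refine final_bound (C := C) hc hD0 L (Real.log R) _ hL hΛ0 hΛ ?_
  rcases Nat.eq_zero_or_pos G.chromaticNumber.toNat with h0 | h0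
  · rw [h0]
    have h3 : 0 ≤ Real.log (n' : ℝ) := Real.log_natCast_nonneg _
    rw [Nat.cast_zero, Real.log_zero]
    linarith
  · have hW0 : 0 < #W := by
      rcases Nat.eq_zero_or_pos #W with h3 | h3
      · rw [h3] at hW2
        omega
      · exact h3
    have h3 : (G.chromaticNumber.toNat : ℝ) ≤ 2 ^ 3 * ((r : ℝ) ^ 2 * #W) := by
      have : (G.chromaticNumber.toNat : ℝ) ≤ ((8 * (r ^ 2 * #W) : ℕ) : ℝ) := by
        exact_mod_cast hW2
      push_cast at this
      linarith
    have hW0' : (0 : ℝ) < #W := by exact_mod_cast hW0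
    have hr0 : (0 : ℝ) < r := by positivity
    have h4 := Real.log_le_log (by exact_mod_cast h0) h3
    rw [Real.log_mul (by norm_num) (by positivity), Real.log_mul (by positivity) hW0'.ne',
      Real.log_pow, Real.log_pow, hLdef] at h4
    push_cast at h4
    have h5 : Real.log (#W : ℝ) ≤ Real.log (n' : ℝ) := by
      apply Real.log_le_log hW0'
      rw [Fintype.card_coe] at hcard
      exact_mod_cast hcard
    linarith

theorem small_of_logRank {γ : ℝ} (h : LogRank) : LogRankSmallAlpha γ := by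
  obtain ⟨c, hc, C, hC⟩ := h
  exact ⟨c, hc, C, fun n G _ hG _ => hC n G hG⟩

/-- The equivalences. -/
theorem equivalences {γ : ℝ} (hγ : 0 < γ) :
    (LogRank ↔ LogRankSmallAlpha γ) ∧ (LogRank ↔ Saving γ) :=
  ⟨⟨small_of_logRank, fun h => logRank_of_ramsey hγ (ramsey_of_small h)⟩,
    ⟨saving_of_logRank, fun h => logRank_of_ramsey (by positivity) (ramsey_of_saving hγ h)⟩⟩

end Pool.Agent.Helper25.LRT
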