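import Pool.Agent.Helper26.HFree

/-!
# The graph form of the log-rank conjecture holds in every proper hereditary class (helper26)

If the vertex set of a graph `G` of rank `r > 1` is partitioned into `t` parts, each of which
induces a subgraph without an induced copy of some graph on `k` vertices (depending on the part),
then `log χ(G) ≤ log t + 26 k (log r)²`.
-/

namespace Pool.Agent.Helper25.LRT.Hered

open Pool.Agent.Helper26

theorem numeric {k r T : ℕ} (hk : 2 ≤ k) (hr : 2 ≤ r) (hT : 2 ^ (T - 1) < r) (hT1 : 1 ≤ T) :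
    Real.log ((8 * DD k r ^ T * r : ℕ) : ℝ) ≤ 26 * k * Real.log r ^ 2 := by
  have hrR : (2 : ℝ) ≤ r := by exact_mod_cast hr
  have hkR : (2 : ℝ) ≤ k := by exact_mod_cast hk
  have hr0 : (0 : ℝ) < r := by linarith
  have hk0 : (0 : ℝ) < k := by linarith
  have hlog2 : (0.6931 : ℝ) < Real.log 2 := by
    have := Real.log_two_gt_d9
    linarith
  have hlogr : Real.log 2 ≤ Real.log r := Real.log_le_log (by norm_num) hrR
  set L := Real.log r with hL
  have hL0 : 0 < L := by linarith
  -- the bound for `T`
  have hTbound : (T : ℝ) * Real.log 2 ≤ 2 * L := by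
    have h1 : ((2 : ℝ) ^ (T - 1)) < r := by exact_mod_cast hT
    have h2 : ((T - 1 : ℕ) : ℝ) * Real.log 2 ≤ L := by
      rw [← Real.log_pow]
      exact Real.log_le_log (by positivity) h1.le
    have h3 : ((T - 1 : ℕ) : ℝ) = (T : ℝ) - 1 := by
      rw [Nat.cast_sub hT1]; simp
    rw [h3] at h2
    nlinarith
  have hT3 : (T : ℝ) ≤ 3 * L := by
    nlinarith
  -- the bound for `log D`
  have hD : Real.log ((DD k r : ℕ) : ℝ) ≤ 3 * L + 3 * k * L + 3 * k * L := by
    have e : ((DD k r : ℕ) : ℝ) = 8 * (k : ℝ) ^ 2 * (2 * ((r : ℝ) + 1)) ^ k := by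
      unfold DD; push_cast; ring
    rw [e, Real.log_mul (by positivity) (by positivity), Real.log_mul (by norm_num) (by positivity),
      Real.log_pow, Real.log_pow]
    have h8 : Real.log 8 ≤ 3 * L := by
      have : (8 : ℝ) = 2 ^ 3 := by norm_num
      rw [this, Real.log_pow]
      push_cast
      linarith
    have hlk : Real.log k ≤ k := by
      have := Real.log_le_sub_one_of_pos hk0
      linarith
    have hkk : ((2 : ℕ) : ℝ) * Real.log k ≤ 3 * k * L := by
      push_cast
      nlinarith
    have h3 : Real.log (2 * ((r : ℝ) + 1)) ≤ 3 * L := by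
      have h4 : 2 * ((r : ℝ) + 1) ≤ (r : ℝ) ^ 3 := by
        nlinarith [sq_nonneg ((r : ℝ) - 2), sq_nonneg (r : ℝ)]
      have h5 : Real.log ((r : ℝ) ^ 3) = 3 * L := by
        rw [Real.log_pow]; push_cast; ring
      rw [← h5]
      exact Real.log_le_log (by positivity) h4
    have hk3 : (k : ℝ) * Real.log (2 * ((r : ℝ) + 1)) ≤ 3 * k * L := by
      nlinarith
    linarith
  have hDpos : (0 : ℝ) < ((DD k r : ℕ) : ℝ) := by
    unfold DD; positivity
  have hmain : Real.log ((8 * DD k r ^ T * r : ℕ) : ℝ) =
      Real.log 8 + T * Real.log ((DD k r : ℕ) : ℝ) + L := by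
    push_cast
    rw [Real.log_mul (by positivity) (by positivity), Real.log_mul (by norm_num) (by positivity),
      Real.log_pow]
  rw [hmain]
  have h8 : Real.log 8 ≤ 3 * L := by
    have : (8 : ℝ) = 2 ^ 3 := by norm_num
    rw [this, Real.log_pow]
    push_cast
    linarith
  have hTD : (T : ℝ) * Real.log ((DD k r : ℕ) : ℝ) ≤ (3 * L) * (3 * L + 3 * k * L + 3 * k * L) := by
    have hT0 : (0 : ℝ) ≤ T := Nat.cast_nonneg _
    have h0 : 0 ≤ 3 * L + 3 * k * L + 3 * k * L := by positivity
    calc (T : ℝ) * Real.log ((DD k r : ℕ) : ℝ) ≤ T * (3 * L + 3 * k * L + 3 * k * L) :=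
          mul_le_mul_of_nonneg_left hD hT0
      _ ≤ _ := mul_le_mul_of_nonneg_right hT3 h0
  have hLL : L ≤ 1.4428 * L ^ 2 := by nlinarith
  have hkL : 2 * L ^ 2 ≤ k * L ^ 2 := by nlinarith
  nlinarith

/-- **The graph form of the log-rank conjecture for hereditary classes.**  Let `G` be a finite
graph whose real adjacency matrix has rank `r > 1`, and let its vertices be partitioned into `t`
parts such that the subgraph induced on each part has no induced subgraph isomorphic to some graph
on `k` vertices (depending on the part).  Then `log χ(G) ≤ log t + 26 k (log r)²`. -/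
theorem hereditary (k t n : ℕ) (G : SimpleGraph (Fin n)) [DecidableRel G.Adj] (p : Fin n → Fin t)
    (hfree : ∀ i : Fin t, ∃ H : SimpleGraph (Fin k), IsEmpty (H ↪g G.induce {v | p v = i}))
    (hr : 1 < (G.adjMatrix ℝ).rank) :
    Real.log (G.chromaticNumber.toNat : ℝ) ≤
      Real.log t + 26 * k * Real.log ((G.adjMatrix ℝ).rank : ℝ) ^ 2 := by
  classical
  have hfree' : ∀ i : Fin t, ∃ H : SimpleGraph (Fin k), FreeOn G H {v | p v = i} := by
    intro i
    obtain ⟨H, hH⟩ := hfree i
    refine ⟨H, ?_⟩
    rintro ⟨f, hinj, hmem, hadj⟩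
    have hmem' : ∀ a, f a ∈ ({v | p v = i} : Set (Fin n)) := by
      intro a
      simpa using hmem a
    refine hH.false ⟨⟨fun a => ⟨f a, hmem' a⟩, ?_⟩, ?_⟩
    · intro a b hab
      exact hinj (congrArg Subtype.val hab)
    · intro a b
      by_cases hab : a = b
      · subst hab; simp
      · exact hadj a b hab
  have hn : 0 < n := by
    by_contra h0
    have : n = 0 := by omega
    subst this
    have := Matrix.rank_le_card_height (R := ℝ) (G.adjMatrix ℝ)
    simp at this
    omega
  let v₀ : Fin n := ⟨0, hn⟩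
  have ht : 0 < t := (p v₀).pos
  have hk : 2 ≤ k := by
    by_contra hk
    obtain ⟨H, hH⟩ := hfree (p v₀)
    apply hH.false
    refine ⟨⟨fun _ => ⟨v₀, rfl⟩, ?_⟩, ?_⟩
    · intro a b _
      apply Fin.ext
      omega
    · intro a b
      have : a = b := by
        apply Fin.ext
        omega
      subst this
      simp
  set r := (G.adjMatrix ℝ).rank with hrdef
  set T := Nat.clog 2 r with hTdef
  have hT1 : 1 ≤ T := Nat.clog_pos (by norm_num) (by omega)
  have hT2 : r ≤ 2 ^ T := Nat.le_pow_clog (by norm_num) r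
  have hT3 : 2 ^ (T - 1) < r := Nat.pow_pred_clog_lt_self (by norm_num) (by omega)
  have hcol := colorable_of_parts G hk (r := r) (T := T) (by omega) le_rfl (by omega) p hfree'
  have hχ : G.chromaticNumber.toNat ≤ t * (8 * DD k r ^ T * r) := by
    have h1 := hcol.chromaticNumber_le
    have h2 := ENat.toNat_le_toNat h1 (ENat.natCast_ne_top _)
    rwa [ENat.toNat_natCast] at h2
  have hχpos : 0 < G.chromaticNumber.toNat := by
    have h1 : G.chromaticNumber ≠ 0 := by
      intro h0
      rw [SimpleGraph.chromaticNumber_eq_zero_iff] at h0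
      exact h0.false v₀
    have h2 : G.chromaticNumber ≠ ⊤ := by
      intro h0
      have h1 := hcol.chromaticNumber_le
      rw [h0] at h1
      exact absurd (top_le_iff.1 h1) (ENat.natCast_ne_top _)
    rw [Nat.pos_iff_ne_zero]
    intro h0
    rcases ENat.toNat_eq_zero.1 h0 with h | h
    · exact h1 h
    · exact h2 h
  have hnum := numeric hk (by omega : 2 ≤ r) hT3 hT1
  have hpos : (0 : ℝ) < ((8 * DD k r ^ T * r : ℕ) : ℝ) := by
    have : 0 < DD k r := by unfold DD; positivity
    have : 0 < r := by omega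
    positivity
  calc Real.log (G.chromaticNumber.toNat : ℝ)
      ≤ Real.log ((t * (8 * DD k r ^ T * r) : ℕ) : ℝ) :=
        Real.log_le_log (by exact_mod_cast hχpos) (by exact_mod_cast hχ)
    _ = Real.log t + Real.log ((8 * DD k r ^ T * r : ℕ) : ℝ) := by
        rw [Nat.cast_mul, Real.log_mul (by exact_mod_cast ht.ne') hpos.ne']
    _ ≤ _ := by linarith

end Pool.Agent.Helper25.LRT.Hered
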