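import Pool.Agent.Helper25.LRT.DefsOrder
import Pool.Agent.Helper25.LRT.Equiv

/-!
Q1 for graphs of large order implies Q1.
-/

namespace Pool.Agent.Helper25.LRT

open Finset Matrix Pool.Agent.Helper26

theorem logRank_of_large {γ : ℝ} (hγ : 0 < γ) (h : LogRankLargeOrder γ) : LogRank := by
  obtain ⟨c, hc, C, hC⟩ := h
  obtain ⟨D, hD0, hD⟩ := log_R γ
  have h2 : 0 < Real.log 2 := Real.log_pos (by norm_num)
  refine ⟨max 1 (max 1 (1 / γ) * c), by positivity,
    5 * Real.log 2 ^ (1 - max 1 (max 1 (1 / γ) * c)) +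
      |C| * D ^ c * Real.log 2 ^ (max 1 (1 / γ) * c - max 1 (max 1 (1 / γ) * c)),
    fun n G _ hG => ?_⟩
  have hr : 2 ≤ (G.adjMatrix ℝ).rank := hG.2.2
  have hL := log_two_le_log hr
  have hn2 : 2 ≤ n := by
    have h3 := (G.adjMatrix ℝ).rank_le_card_width
    rw [Fintype.card_fin] at h3
    omega
  have hnt : Nontrivial (Fin n) := Fin.nontrivial_iff_two_le.2 hn2
  generalize hrdef : (G.adjMatrix ℝ).rank = r at hr hL ⊢
  generalize hLdef : Real.log (r : ℝ) = L at hL ⊢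
  have hL0 : 0 < L := lt_of_lt_of_le h2 hL
  obtain ⟨X, hX⟩ : ∃ X : ℝ, X = (2 * L) ^ (1 / γ) := ⟨_, rfl⟩
  have hX0 : 0 < X := by rw [hX]; exact Real.rpow_pos_of_pos (by linarith) _
  obtain ⟨k, hk⟩ : ∃ k : ℕ, k = ⌈Real.exp X⌉₊ := ⟨_, rfl⟩
  have hk1 : Real.exp X ≤ (k : ℝ) := by
    rw [hk]
    exact Nat.le_ceil (Real.exp X)
  have hk2 : (k : ℝ) ≤ Real.exp X + 1 := by
    rw [hk]
    exact (Nat.ceil_lt_add_one (Real.exp_pos X).le).le
  have hk3 : 2 ≤ k := by
    have h3 : (1 : ℝ) < Real.exp X := Real.one_lt_exp_iff.2 hX0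
    have h4 : 1 < ⌈Real.exp X⌉₊ := Nat.lt_ceil.2 (by exact_mod_cast h3)
    omega
  obtain ⟨n', G', hdec, _, hconn, htf, hRle, hcard, hchi⟩ := dbl_iter G
    (fun v => hG.1.preconnected.exists_adj_of_nontrivial v) hG.1 hG.2.1 k
  have hcard2 := card_le_two_pow G' htf
  rw [Fintype.card_fin] at hcard2
  rw [hrdef] at hRle
  generalize hR : (G'.adjMatrix ℝ).rank = R at hRle hcard2
  have hkR : k ≤ R := by
    have h3 : 2 ^ k ≤ 2 ^ R := by
      calc 2 ^ k ≤ 2 ^ k * n := Nat.le_mul_of_pos_right _ (by omega)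
        _ ≤ n' := hcard
        _ ≤ _ := hcard2
    exact (Nat.pow_le_pow_iff_right (by norm_num)).1 h3
  have hRX : Real.exp X ≤ R := hk1.trans (by exact_mod_cast hkR)
  have hadm : Admissible G' := ⟨hconn, htf, by rw [hR]; omega⟩
  have hXlog : X ≤ Real.log R := by
    have := Real.log_le_log (Real.exp_pos X) hRX
    rwa [Real.log_exp] at this
  have hr0 : (0 : ℝ) < r := by positivity
  have hmain := hC _ G' hadm (by
    rw [hR]
    have h5 : 2 * L = X ^ γ := by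
      rw [hX, ← Real.rpow_mul (by linarith), one_div, inv_mul_cancel₀ hγ.ne', Real.rpow_one]
    have h6 : (r : ℝ) / 2 ≤ Real.exp (Real.log R ^ γ) := by
      calc (r : ℝ) / 2 ≤ r := by linarith
        _ = Real.exp L := by rw [← hLdef, Real.exp_log hr0]
        _ ≤ Real.exp (X ^ γ) := Real.exp_le_exp.2 (by linarith)
        _ ≤ _ := Real.exp_le_exp.2 (Real.rpow_le_rpow hX0.le hXlog hγ.le)
    have h7 : (R : ℝ) ≤ r + 2 * k := by exact_mod_cast hRle
    have h8 : (R : ℝ) / 2 - Real.exp (Real.log R ^ γ) ≤ (k : ℕ) := by linarith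
    calc (2 : ℝ) ^ ((R : ℝ) / 2 - Real.exp (Real.log R ^ γ)) ≤ (2 : ℝ) ^ ((k : ℕ) : ℝ) :=
          Real.rpow_le_rpow_of_exponent_le (by norm_num) h8
      _ = ((2 ^ k : ℕ) : ℝ) := by rw [Real.rpow_natCast]; push_cast; rfl
      _ ≤ ((2 ^ k * n : ℕ) : ℝ) := by
          exact_mod_cast Nat.le_mul_of_pos_right _ (by omega)
      _ ≤ n' := by exact_mod_cast hcard)
  rw [hR] at hmain
  have hR1 : 1 ≤ R := by omega
  have hΛ := hD r R hr hR1 (by
    have h3 : (R : ℝ) ≤ r + 2 * k := by exact_mod_cast hRle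
    rw [hLdef, ← hX]
    linarith)
  rw [hLdef] at hΛ
  have hΛ0 : 0 ≤ Real.log (R : ℝ) := hX0.le.trans hXlog
  refine final_bound (C := C) hc hD0 L (Real.log R) _ hL hΛ0 hΛ ?_
  have hchi' : G.chromaticNumber.toNat ≤ G'.chromaticNumber.toNat := by
    apply ENat.toNat_le_toNat hchi
    have h3 : G'.Colorable (Fintype.card (Fin n')) := SimpleGraph.colorable_of_fintype _
    exact ne_top_of_le_ne_top (ENat.natCast_ne_top _) h3.chromaticNumber_le
  rcases Nat.eq_zero_or_pos G.chromaticNumber.toNat with h0 | h0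
  · rw [h0, Nat.cast_zero, Real.log_zero]
    have h3 : 0 ≤ Real.log (G'.chromaticNumber.toNat : ℝ) := Real.log_natCast_nonneg _
    linarith
  · have h3 : Real.log (G.chromaticNumber.toNat : ℝ) ≤ Real.log (G'.chromaticNumber.toNat : ℝ) :=
      Real.log_le_log (by exact_mod_cast h0) (by exact_mod_cast hchi')
    linarith

theorem large_iff {γ : ℝ} (hγ : 0 < γ) : LogRank ↔ LogRankLargeOrder γ := by
  refine ⟨fun h => ?_, logRank_of_large hγ⟩
  obtain ⟨c, hc, C, hC⟩ := h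
  exact ⟨c, hc, C, fun n G _ hG _ => hC n G hG⟩

end Pool.Agent.Helper25.LRT
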