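import Pool.Agent.Helper25.LRT.Struct

/-!
The structure theorem with independent sets of size about `r log |S|` (idea of helper26: take the
row basis inside the sample).
-/

namespace Pool.Agent.Helper25.LRT

open Finset Matrix Pool.Agent.Helper26

variable {V : Type*} [Fintype V] [DecidableEq V] (G : SimpleGraph V) [DecidableRel G.Adj]

omit [Fintype V] in
theorem count_subsets {W : Finset V} {N t r x : ℕ} (C : Finset V → Finset V)
    (hx : ∀ J ∈ powersetCard r W, #(C J) ≤ x)
    (h : ∀ S ∈ powersetCard N W, ∃ I ⊆ S, #I = t ∧ ∃ J ⊆ I, #J = r ∧ I ⊆ C J) :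
    (#W).choose N ≤ (#W).choose r * (x.choose (t - r) * (#W - t).choose (N - t)) := by
  classical
  have h1 : powersetCard N W ⊆ (powersetCard r W).biUnion fun J =>
      ((powersetCard (t - r) (C J)).filter fun K => #(J ∪ K) = t).biUnion fun K =>
        {S ∈ powersetCard N W | J ∪ K ⊆ S} := by
    intro S hS
    obtain ⟨I, hIS, hI, J, hJI, hJ, hIC⟩ := h S hS
    obtain ⟨hSW, hSN⟩ := mem_powersetCard.1 hS
    have hun : J ∪ (I \ J) = I := union_sdiff_of_subset hJI
    refine mem_biUnion.2 ⟨J, mem_powersetCard.2 ⟨hJI.trans (hIS.trans hSW), hJ⟩, ?_⟩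
    refine mem_biUnion.2 ⟨I \ J, mem_filter.2 ⟨mem_powersetCard.2 ⟨?_, ?_⟩, ?_⟩, ?_⟩
    · exact sdiff_subset.trans hIC
    · rw [card_sdiff_of_subset hJI, hI, hJ]
    · rw [hun, hI]
    · exact mem_filter.2 ⟨hS, by rw [hun]; exact hIS⟩
  calc (#W).choose N = #(powersetCard N W) := (card_powersetCard _ _).symm
    _ ≤ _ := card_le_card h1
    _ ≤ #(powersetCard r W) * (x.choose (t - r) * (#W - t).choose (N - t)) := by
      apply card_biUnion_le_card_mul
      intro J hJ
      calc #(((powersetCard (t - r) (C J)).filter fun K => #(J ∪ K) = t).biUnion fun K =>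
            {S ∈ powersetCard N W | J ∪ K ⊆ S})
          ≤ #((powersetCard (t - r) (C J)).filter fun K => #(J ∪ K) = t) *
              (#W - t).choose (N - t) := by
            apply card_biUnion_le_card_mul
            intro K hK
            have h3 := card_super (U := W) (T := J ∪ K) N
            rwa [(mem_filter.1 hK).2] at h3
        _ ≤ _ := by
            apply Nat.mul_le_mul_right
            refine (card_filter_le _ _).trans ?_
            rw [card_powersetCard]
            exact Nat.choose_le_choose _ (hx J hJ)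
    _ = _ := by rw [card_powersetCard]

theorem count_num {w N r m x : ℕ} (hr : 2 * r ≤ w) (hm : m ≤ w - r) (hw : 0 < w) (hx : x ≤ w - r)
    (h : 18 * N * x ≤ m * w) (hN : N ^ r < 3 ^ m) :
    x.choose m * (N.choose r * (N - r).choose m) < (w - r).choose m := by
  have h1 := choose_ratio hx m
  have h2 : (N - r).choose m * m.factorial ≤ N ^ m := by
    have := Nat.choose_le_pow_div (α := ℝ) m (N - r)
    have h0 : (0 : ℝ) < m.factorial := by exact_mod_cast Nat.factorial_pos m
    rw [le_div_iff₀ h0] at this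
    have h3 : (N - r).choose m * m.factorial ≤ (N - r) ^ m := by exact_mod_cast this
    exact h3.trans (Nat.pow_le_pow_left (Nat.sub_le _ _) _)
  have h3 : N.choose r < 3 ^ m := lt_of_le_of_lt (Nat.choose_le_pow _ _) hN
  have hwr : 0 < w - r := by omega
  have h4 : 9 * N * x ≤ m * (w - r) := by
    have h5 : w ≤ 2 * (w - r) := by omega
    have h6 : m * w ≤ m * (2 * (w - r)) := Nat.mul_le_mul_left _ h5
    have h7 : m * (2 * (w - r)) = 2 * (m * (w - r)) := by ring
    have h8 : 18 * N * x = 2 * (9 * N * x) := by ring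
    omega
  have h5 : 3 ^ m * (x * N) ^ m ≤ m.factorial * (w - r) ^ m := by
    have h6 : 3 ^ m * (3 ^ m * (x * N) ^ m) ≤ 3 ^ m * (m.factorial * (w - r) ^ m) := by
      calc 3 ^ m * (3 ^ m * (x * N) ^ m) = (9 * N * x) ^ m := by
            rw [← mul_pow, ← mul_pow]; ring
        _ ≤ (m * (w - r)) ^ m := Nat.pow_le_pow_left h4 _
        _ = m ^ m * (w - r) ^ m := mul_pow _ _ _
        _ ≤ (3 ^ m * m.factorial) * (w - r) ^ m := Nat.mul_le_mul_right _ (pow_self_le_nat m)
        _ = _ := by ring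
    exact Nat.le_of_mul_le_mul_left h6 (Nat.pow_pos (by norm_num))
  have hc : 0 < (w - r).choose m := Nat.choose_pos hm
  have hf : 0 < m.factorial := Nat.factorial_pos m
  have hpos : 0 < (w - r) ^ m * m.factorial := Nat.mul_pos (Nat.pow_pos hwr) hf
  have h7 : (x.choose m * (N.choose r * (N - r).choose m)) * ((w - r) ^ m * m.factorial) <
      (w - r).choose m * ((w - r) ^ m * m.factorial) := by
    rcases Nat.eq_zero_or_pos ((w - r).choose m * x ^ m * N ^ m) with h0 | h0
    · calc (x.choose m * (N.choose r * (N - r).choose m)) * ((w - r) ^ m * m.factorial)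
          = (x.choose m * (w - r) ^ m) * ((N - r).choose m * m.factorial) * N.choose r := by ring
        _ ≤ ((w - r).choose m * x ^ m) * N ^ m * N.choose r := by gcongr
        _ = 0 := by rw [h0, zero_mul]
        _ < _ := Nat.mul_pos hc hpos
    · calc (x.choose m * (N.choose r * (N - r).choose m)) * ((w - r) ^ m * m.factorial)
          = (x.choose m * (w - r) ^ m) * ((N - r).choose m * m.factorial) * N.choose r := by ring
        _ ≤ ((w - r).choose m * x ^ m) * N ^ m * N.choose r := by gcongr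
        _ < ((w - r).choose m * x ^ m * N ^ m) * 3 ^ m := Nat.mul_lt_mul_of_pos_left h3 h0
        _ = (w - r).choose m * (3 ^ m * (x * N) ^ m) := by rw [mul_pow]; ring
        _ ≤ (w - r).choose m * (m.factorial * (w - r) ^ m) := Nat.mul_le_mul_left _ h5
        _ = _ := by ring
  exact lt_of_mul_lt_mul_right h7 (Nat.zero_le _)

theorem cl_spec' {I : Finset V} {r : ℕ} (hrk : (G.adjMatrix ℝ).rank ≤ r) (hr : r ≤ #I)
    (hI : ∀ u ∈ I, ∀ v ∈ I, ¬ G.Adj u v) :
    ∃ J ⊆ I, #J = r ∧ I ⊆ cl G J ∧ ∀ u ∈ cl G J, ∀ v ∈ cl G J, ¬ G.Adj u v := by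
  obtain ⟨B, hBI, hB, hZ⟩ := basis_subset G I
  obtain ⟨J, hBJ, hJI, hJ⟩ := exists_subsuperset_card_eq hBI (hB.trans hrk) hr
  refine ⟨J, hJI, hJ, ?_, ?_⟩
  · intro i hi
    rw [cl, mem_filter]
    exact ⟨mem_univ _, fun v hv hadj => hZ v (fun b hb => hv b (hBJ hb)) i hi hadj.symm⟩
  · intro u hu v hv
    rw [cl, mem_filter] at hu hv
    apply hu.2
    intro b hb hadj
    exact hv.2 b (fun c hc hbc => hI b (hJI hb) c (hJI hc) hbc) hadj

theorem exists_large_indep' {r N t : ℕ} (hrk : (G.adjMatrix ℝ).rank ≤ r) (ht : 4 * r + 1 ≤ t)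
    (htN : t ≤ N) (hNt : N ^ r < 3 ^ (t - r)) {U : Finset V} (hU : N ≤ #U)
    (h : ∀ S ⊆ U, #S = N → ∃ I ⊆ S, t ≤ #I ∧ ∀ u ∈ I, ∀ v ∈ I, ¬ G.Adj u v) :
    ∃ I ⊆ U, (t - r) * #U ≤ 18 * N * #I ∧ ∀ u ∈ I, ∀ v ∈ I, ¬ G.Adj u v := by
  classical
  by_contra hcon
  push Not at hcon
  have hcon' : ∀ I ⊆ U, (∀ u ∈ I, ∀ v ∈ I, ¬ G.Adj u v) → 18 * N * #I < (t - r) * #U := by
    intro I hI hind
    by_contra hlt
    obtain ⟨u, hu, v, hv, huv⟩ := hcon I hI (by omega)
    exact hind u hu v hv huv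
  set x := (t - r) * #U / (18 * N) with hx
  have hN0 : 0 < N := by omega
  have hx1 : 18 * N * x ≤ (t - r) * #U := Nat.mul_div_le _ _
  have hx2 : x ≤ #U - r := by
    have h1 : 18 * N * x ≤ N * #U := hx1.trans (Nat.mul_le_mul_right _ (by omega))
    have h2 : N * (18 * x) ≤ N * #U := by
      calc N * (18 * x) = 18 * N * x := by ring
        _ ≤ _ := h1
    have h3 := Nat.le_of_mul_le_mul_left h2 hN0
    omega
  have hxI : ∀ I ⊆ U, (∀ u ∈ I, ∀ v ∈ I, ¬ G.Adj u v) → #I ≤ x := by
    intro I hI hind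
    rw [hx, Nat.le_div_iff_mul_le (by omega)]
    have := hcon' I hI hind
    rw [Nat.mul_comm]
    omega
  let C : Finset V → Finset V := fun J =>
    if (∀ u ∈ cl G J ∩ U, ∀ v ∈ cl G J ∩ U, ¬ G.Adj u v) then cl G J ∩ U else ∅
  have hC : ∀ J, #(C J) ≤ x := by
    intro J
    by_cases hJ : ∀ u ∈ cl G J ∩ U, ∀ v ∈ cl G J ∩ U, ¬ G.Adj u v
    · have : C J = cl G J ∩ U := if_pos hJ
      rw [this]
      exact hxI _ inter_subset_right hJ
    · have : C J = ∅ := if_neg hJ
      rw [this]
      simp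
  have h1 := count_subsets (W := U) (N := N) (t := t) (r := r) (x := x) C (fun J _ => hC J) (by
      intro S hS
      obtain ⟨hSU, hSN⟩ := mem_powersetCard.1 hS
      obtain ⟨I', hI'S, hI't, hind'⟩ := h S hSU hSN
      obtain ⟨I, hII', hI⟩ := exists_subset_card_eq hI't
      have hIS : I ⊆ S := hII'.trans hI'S
      have hind : ∀ u ∈ I, ∀ v ∈ I, ¬ G.Adj u v := fun u hu v hv => hind' u (hII' hu) v (hII' hv)
      obtain ⟨J, hJI, hJ, hcl, hclind⟩ := cl_spec' G hrk (by omega : r ≤ #I) hind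
      refine ⟨I, hIS, hI, J, hJI, hJ, ?_⟩
      have hJ' : ∀ u ∈ cl G J ∩ U, ∀ v ∈ cl G J ∩ U, ¬ G.Adj u v := fun u hu v hv =>
        hclind u (mem_inter.1 hu).1 v (mem_inter.1 hv).1
      have : C J = cl G J ∩ U := if_pos hJ'
      rw [this]
      intro i hi
      exact mem_inter.2 ⟨hcl hi, hSU (hIS hi)⟩)
  have h2 := count_num (w := #U) (N := N) (r := r) (m := t - r) (x := x) (by omega) (by omega)
    (by omega) hx2 hx1 hNt
  have e1 : (#U).choose N * N.choose r = (#U).choose r * (#U - r).choose (N - r) :=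
    Nat.choose_mul (by omega)
  have e2 : (#U - r).choose (N - r) * (N - r).choose (t - r) =
      (#U - r).choose (t - r) * (#U - t).choose (N - t) := by
    have := Nat.choose_mul (n := #U - r) (k := N - r) (s := t - r) (by omega)
    rw [this]
    congr 2 <;> omega
  have hc : 0 < (#U).choose N := Nat.choose_pos hU
  have h3 : (#U).choose N * (#U - r).choose (t - r) ≤
      (#U).choose N * (x.choose (t - r) * (N.choose r * (N - r).choose (t - r))) := by
    calc (#U).choose N * (#U - r).choose (t - r)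
        ≤ ((#U).choose r * (x.choose (t - r) * (#U - t).choose (N - t))) *
            (#U - r).choose (t - r) := Nat.mul_le_mul_right _ h1
      _ = (#U).choose r * x.choose (t - r) *
            ((#U - r).choose (t - r) * (#U - t).choose (N - t)) := by ring
      _ = (#U).choose r * x.choose (t - r) *
            ((#U - r).choose (N - r) * (N - r).choose (t - r)) := by rw [e2]
      _ = ((#U).choose r * (#U - r).choose (N - r)) * (x.choose (t - r) *
            (N - r).choose (t - r)) := by ring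
      _ = ((#U).choose N * N.choose r) * (x.choose (t - r) *
            (N - r).choose (t - r)) := by rw [e1]
      _ = _ := by ring
  have h4 := Nat.le_of_mul_le_mul_left h3 hc
  omega

omit [Fintype V] [DecidableRel G.Adj] in
theorem greedy'' {M N : ℕ}
    (h : ∀ U : Finset V, N < #U → ∃ I ⊆ U, #U ≤ M * #I ∧ ∀ u ∈ I, ∀ v ∈ I, ¬ G.Adj u v) (m : ℕ) :
    ∀ U : Finset V, #U * (M - 1) ^ m < (N + 1) * M ^ m → Col G U (N + m) := by
  induction m with
  | zero =>
    intro U hcard
    apply col_card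
    simp at hcard
    omega
  | succ m ih =>
    intro U hcard
    rcases Nat.lt_or_ge N #U with h0 | h0
    swap
    · apply col_card
      omega
    obtain ⟨I, hIU, hIcard, hI⟩ := h U h0
    rcases Nat.eq_zero_or_pos M with hM | hM
    · subst hM
      simp at hcard
    obtain ⟨c, hc1, hc2⟩ := ih (U \ I) (by
      have h1 : #(U \ I) = #U - #I := card_sdiff_of_subset hIU
      have h2 : #I ≤ #U := card_le_card hIU
      have h3 : M * #(U \ I) ≤ (M - 1) * #U := by
        rw [h1, Nat.mul_sub, Nat.sub_mul, one_mul]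
        omega
      have h4 : M * (#(U \ I) * (M - 1) ^ m) < M * ((N + 1) * M ^ m) := by
        calc M * (#(U \ I) * (M - 1) ^ m) = (M * #(U \ I)) * (M - 1) ^ m := by ring
          _ ≤ ((M - 1) * #U) * (M - 1) ^ m := Nat.mul_le_mul_right _ h3
          _ = #U * (M - 1) ^ (m + 1) := by ring
          _ < (N + 1) * M ^ (m + 1) := hcard
          _ = M * ((N + 1) * M ^ m) := by ring
      exact lt_of_mul_lt_mul_left h4 (Nat.zero_le _))
    refine ⟨fun v => if v ∈ I then N + m else c v, ?_, ?_⟩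
    · intro v hv
      dsimp only
      split_ifs with hvI
      · omega
      · have := hc1 v (mem_sdiff.2 ⟨hv, hvI⟩)
        omega
    · intro u hu v hv hadj
      dsimp only
      split_ifs with huI hvI hvI
      · exact absurd hadj (hI u huI v hvI)
      · have := hc1 v (mem_sdiff.2 ⟨hv, hvI⟩)
        omega
      · have := hc1 u (mem_sdiff.2 ⟨hu, huI⟩)
        omega
      · exact hc2 u (mem_sdiff.2 ⟨hu, huI⟩) v (mem_sdiff.2 ⟨hv, hvI⟩) hadj

theorem col_eight {r N t : ℕ} (hr : 2 ≤ r) (hrk : (G.adjMatrix ℝ).rank ≤ r)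
    (hn : Fintype.card V ≤ 2 ^ r) (ht : 4 * r + 1 ≤ t) (htN : t ≤ N + 1)
    (hNt : (N + 1) ^ r < 3 ^ (t - r))
    (h : ∀ S : Finset V, #S = N + 1 → ∃ I ⊆ S, t ≤ #I ∧ ∀ u ∈ I, ∀ v ∈ I, ¬ G.Adj u v) :
    Col G univ (8 * N) := by
  obtain ⟨m, hm⟩ : ∃ m, m = t - r := ⟨_, rfl⟩
  have hm0 : 3 * r + 1 ≤ m := by omega
  obtain ⟨q, hq⟩ : ∃ q, q = 18 * (N + 1) / m := ⟨_, rfl⟩
  have hq1 : 18 * (N + 1) < m * (q + 1) := by
    rw [hq]
    have h1 := Nat.div_add_mod (18 * (N + 1)) m
    have h2 := Nat.mod_lt (18 * (N + 1)) (show m > 0 by omega)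
    calc 18 * (N + 1) = m * (18 * (N + 1) / m) + 18 * (N + 1) % m := h1.symm
      _ < m * (18 * (N + 1) / m) + m := Nat.add_lt_add_left h2 _
      _ = m * (18 * (N + 1) / m + 1) := by ring
  have hg := greedy'' G (M := q + 1) (N := N) (fun U hU => by
    obtain ⟨I, hIU, hI, hind⟩ := exists_large_indep' G hrk ht htN hNt (U := U) hU
      (fun S _ hS => h S hS)
    refine ⟨I, hIU, ?_, hind⟩
    rw [← hm] at hI
    have h1 : m * #U ≤ m * ((q + 1) * #I) := by
      calc m * #U ≤ 18 * (N + 1) * #I := hI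
        _ ≤ m * (q + 1) * #I := Nat.mul_le_mul_right _ hq1.le
        _ = _ := by ring
    exact Nat.le_of_mul_le_mul_left h1 (by omega)) ((q + 1) * r) univ (by
      rw [card_univ]
      calc Fintype.card V * (q + 1 - 1) ^ ((q + 1) * r) < (q + 1) ^ ((q + 1) * r) :=
            greedy_size (by omega) (by omega) hn
        _ ≤ (N + 1) * (q + 1) ^ ((q + 1) * r) := Nat.le_mul_of_pos_left _ (by omega))
  have hle : N + (q + 1) * r ≤ 8 * N := by
    have h1 : m * q ≤ 18 * (N + 1) := by rw [hq]; exact Nat.mul_div_le _ _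
    have h2 : 3 * (q * r) ≤ 18 * (N + 1) := by
      refine le_trans ?_ h1
      calc 3 * (q * r) = (3 * r) * q := by ring
        _ ≤ m * q := Nat.mul_le_mul_right _ (by omega)
    have h4 : (q + 1) * r = q * r + r := by ring
    omega
  obtain ⟨c, hc1, hc2⟩ := hg
  exact ⟨c, fun v hv => lt_of_lt_of_le (hc1 v hv) hle, hc2⟩

/-- The sharp structure theorem. -/
theorem structure_sharp {r : ℕ} (hr : 2 ≤ r) (hrk : (G.adjMatrix ℝ).rank ≤ r)
    (hn : Fintype.card V ≤ 2 ^ r) :
    ∃ S : Finset V, G.chromaticNumber.toNat ≤ 8 * #S ∧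
      ∀ I ⊆ S, (∀ u ∈ I, ∀ v ∈ I, ¬ G.Adj u v) → (#I : ℝ) ≤ r * (4 + Real.log (#S + 1)) := by
  classical
  let P : ℕ → Finset V → Prop := fun t S =>
    ∀ I ⊆ S, (∀ u ∈ I, ∀ v ∈ I, ¬ G.Adj u v) → #I < t
  let F : ℕ → Finset (Finset V) := fun t => univ.filter (P t)
  let Nt : ℕ → ℕ := fun t => (F t).sup card
  have hNt_le : ∀ t, Nt t ≤ Fintype.card V := by
    intro t
    apply Finset.sup_le
    intro S _
    exact card_le_univ S
  have hmono : ∀ s t, s ≤ t → Nt s ≤ Nt t := by
    intro s t hst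
    apply Finset.sup_le
    intro S hS
    have : S ∈ F t := by
      refine mem_filter.2 ⟨mem_univ _, fun I hI hind => ?_⟩
      have := (mem_filter.1 hS).2 I hI hind
      omega
    exact Finset.le_sup (f := card) this
  have hex : ∃ t, 4 * r + 1 ≤ t ∧ (Nt t + 1) ^ r < 3 ^ (t - r) := by
    refine ⟨4 * r + 1 + (Fintype.card V + 1) ^ r + r, by omega, ?_⟩
    calc (Nt _ + 1) ^ r ≤ (Fintype.card V + 1) ^ r :=
          Nat.pow_le_pow_left (Nat.add_le_add_right (hNt_le _) 1) _
      _ < 3 ^ ((Fintype.card V + 1) ^ r) := Nat.lt_pow_self (by norm_num)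
      _ ≤ 3 ^ (4 * r + 1 + (Fintype.card V + 1) ^ r + r - r) :=
          Nat.pow_le_pow_right (by norm_num) (by omega)
  obtain ⟨ht1, ht2⟩ := Nat.find_spec hex
  have hmin := fun s (hs : s < Nat.find hex) => Nat.find_min hex hs
  generalize Nat.find hex = t at ht1 ht2 hmin
  have hne : (F t).Nonempty := by
    refine ⟨∅, mem_filter.2 ⟨mem_univ _, ?_⟩⟩
    intro I hI _
    rw [subset_empty.1 hI, card_empty]
    omega
  obtain ⟨S, hS, hSN⟩ := Finset.exists_mem_eq_sup (F t) hne card
  have hPS : P t S := (mem_filter.1 hS).2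
  have hSN' : Nt t = #S := hSN
  refine ⟨S, ?_, ?_⟩
  · have hSn : #S ≤ Fintype.card V := card_le_univ S
    rcases Nat.eq_or_lt_of_le hSn with heq | hlt
    · refine (Col.toNat_le G (col_card G (m := #S) ?_)).trans (by omega)
      rw [card_univ, heq]
    · have hfail : ∀ S' : Finset V, #S' = #S + 1 → ¬ P t S' := by
        intro S' hS' hP
        have h1 : #S' ≤ Nt t := Finset.le_sup (f := card) (mem_filter.2 ⟨mem_univ _, hP⟩)
        omega
      have hfail' : ∀ S' : Finset V, #S' = #S + 1 →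
          ∃ I ⊆ S', t ≤ #I ∧ ∀ u ∈ I, ∀ v ∈ I, ¬ G.Adj u v := by
        intro S' hS'
        have h1 := hfail S' hS'
        simp only [P] at h1
        push Not at h1
        obtain ⟨I, hI, hind, hcard⟩ := h1
        exact ⟨I, hI, hcard, hind⟩
      have htN : t ≤ #S + 1 := by
        obtain ⟨S', _, hS'⟩ := exists_subset_card_eq (s := (univ : Finset V)) (n := #S + 1)
          (by rw [card_univ]; exact hlt)
        obtain ⟨I, hI, hIt, _⟩ := hfail' S' hS'
        have := card_le_card hI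
        omega
      exact Col.toNat_le G (col_eight G hr hrk hn ht1 htN (by rw [← hSN']; exact ht2) hfail')
  · intro I hI hind
    have hIt : #I + 1 ≤ t := hPS I hI hind
    have hlog0 : 0 ≤ Real.log ((#S : ℝ) + 1) := Real.log_nonneg (by
      have : (0 : ℝ) ≤ #S := Nat.cast_nonneg _
      linarith)
    have hr0 : (0 : ℝ) ≤ r := Nat.cast_nonneg _
    rcases Nat.eq_or_lt_of_le ht1 with heq | hlt
    · have h1 : (#I : ℝ) ≤ 4 * r := by
        have : #I ≤ 4 * r := by omega
        exact_mod_cast this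
      nlinarith [mul_nonneg hr0 hlog0]
    · have h1 := hmin (t - 1) (by omega)
      have h2 : ¬ (Nt (t - 1) + 1) ^ r < 3 ^ (t - 1 - r) := fun h3 => h1 ⟨by omega, h3⟩
      have h3 : 3 ^ (t - 1 - r) ≤ (#S + 1) ^ r := by
        refine (not_lt.1 h2).trans (Nat.pow_le_pow_left ?_ _)
        have := hmono (t - 1) t (by omega)
        omega
      have h4 : (3 : ℝ) ^ (t - 1 - r) ≤ ((#S : ℝ) + 1) ^ r := by exact_mod_cast h3
      have h5 := Real.log_le_log (by positivity) h4
      rw [Real.log_pow, Real.log_pow] at h5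
      have h6 : (1 : ℝ) ≤ Real.log 3 := by
        have := Real.exp_one_lt_d9
        rw [Real.le_log_iff_exp_le (by norm_num)]
        linarith
      have h7 : ((t - 1 - r : ℕ) : ℝ) ≤ r * Real.log ((#S : ℝ) + 1) := by
        refine le_trans ?_ h5
        have : (0 : ℝ) ≤ ((t - 1 - r : ℕ) : ℝ) := Nat.cast_nonneg _
        nlinarith
      have h8 : (#I : ℝ) ≤ ((t - 1 - r : ℕ) : ℝ) + r := by
        have : #I ≤ (t - 1 - r) + r := by omega
        exact_mod_cast this
      nlinarith [mul_nonneg hr0 hlog0]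

end Pool.Agent.Helper25.LRT
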