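import Pool.Agent.Helper25.LRT.All
import Pool.Agent.Helper25.LRT.Sharp
import Pool.Agent.Helper25.LRT.DefsRamsey

/-!
The Ramsey form of the log-rank conjecture.
-/

namespace Pool.Agent.Helper25.LRT

open Finset Matrix Pool.Agent.Helper26

/-- The sharp structure theorem for graphs with twins. -/
theorem sharp_all {V : Type*} [Fintype V] [DecidableEq V] (G : SimpleGraph V)
    [DecidableRel G.Adj] (hr : 1 < (G.adjMatrix ℝ).rank) :
    ∃ S : Finset V, G.chromaticNumber.toNat ≤ 8 * #S ∧
      ∀ I ⊆ S, G.IsIndepSet I → (#I : ℝ) ≤ (G.adjMatrix ℝ).rank * (4 + Real.log (#S + 1)) := by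
  classical
  obtain ⟨W, hW, ⟨φ⟩⟩ := twin_reps G
  have hrk : ((G.comap (Subtype.val : W → V)).adjMatrix ℝ).rank ≤ (G.adjMatrix ℝ).rank :=
    rank_submatrix_le (G.adjMatrix ℝ) (Subtype.val : W → V) (Subtype.val : W → V)
  have hcard := (card_le_two_pow _ hW).trans (Nat.pow_le_pow_right (by norm_num) hrk)
  obtain ⟨S, hS, hind⟩ := structure_sharp _ (r := (G.adjMatrix ℝ).rank) hr hrk hcard
  refine ⟨S.map ⟨Subtype.val, Subtype.val_injective⟩, ?_, ?_⟩
  · rw [card_map]
    refine le_trans ?_ hS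
    have h1 := SimpleGraph.chromaticNumber_mono_of_hom φ
    apply ENat.toNat_le_toNat h1
    have h2 : (G.comap (Subtype.val : W → V)).Colorable (Fintype.card W) :=
      SimpleGraph.colorable_of_fintype _
    exact ne_top_of_le_ne_top (ENat.natCast_ne_top _) h2.chromaticNumber_le
  · intro I hI hindep
    obtain ⟨J, hJ, rfl⟩ := Finset.subset_map_iff.1 hI
    rw [card_map, card_map]
    apply hind J hJ
    intro u hu v hv hadj
    have hne : u ≠ v := by
      rintro rfl
      exact (G.comap (Subtype.val : W → V)).loopless.irrefl u hadj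
    exact hindep (mem_coe.2 (mem_map_of_mem _ hu)) (mem_coe.2 (mem_map_of_mem _ hv))
      (fun h => hne (Subtype.val_injective h)) hadj

/-- The converse estimate. -/
theorem card_le_of_indep' {n : ℕ} {B : ℝ} (G : SimpleGraph (Fin n)) (S : Finset (Fin n))
    (h : ∀ I ⊆ S, G.IsIndepSet I → (#I : ℝ) ≤ B) : (#S : ℝ) ≤ B * G.chromaticNumber.toNat := by
  classical
  obtain ⟨C⟩ := G.colorable_chromaticNumber_of_fintype
  have h1 : #S = ∑ i : Fin G.chromaticNumber.toNat, #{v ∈ S | C v = i} := by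
    have := card_eq_sum_card_fiberwise (s := S)
      (t := (univ : Finset (Fin G.chromaticNumber.toNat))) (f := fun v => C v)
      (fun v _ => mem_univ _)
    exact this
  have h2 : (#S : ℝ) = ∑ i : Fin G.chromaticNumber.toNat, (#{v ∈ S | C v = i} : ℝ) := by
    conv_lhs => rw [h1]
    push_cast
    rfl
  rw [h2]
  calc ∑ i : Fin G.chromaticNumber.toNat, (#{v ∈ S | C v = i} : ℝ)
      ≤ ∑ _i : Fin G.chromaticNumber.toNat, B := by
        apply sum_le_sum
        intro i _
        apply h _ (filter_subset _ _)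
        intro u hu v hv _ hadj
        rw [mem_coe, mem_filter] at hu hv
        exact C.valid hadj (hu.2.trans hv.2.symm)
    _ = _ := by rw [sum_const, card_univ, Fintype.card_fin, nsmul_eq_mul, mul_comm]

/-- Q1 bounds the chromatic number of all graphs. -/
theorem logRank_all {c C : ℝ} (hC : ∀ (n : ℕ) (G : SimpleGraph (Fin n)) [DecidableRel G.Adj],
    Admissible G → Real.log (G.chromaticNumber.toNat : ℝ) ≤ C * Real.log (G.adjMatrix ℝ).rank ^ c)
    {n : ℕ} (G : SimpleGraph (Fin n)) [DecidableRel G.Adj] :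
    ∃ R : ℕ, 2 ≤ R ∧ R ≤ (G.adjMatrix ℝ).rank + 4 ∧
      Real.log (G.chromaticNumber.toNat : ℝ) ≤ |C| * Real.log R ^ c := by
  classical
  obtain ⟨W, hW, ⟨φ⟩⟩ := twin_reps G
  have hrk : ((G.comap (Subtype.val : W → Fin n)).adjMatrix ℝ).rank ≤ (G.adjMatrix ℝ).rank :=
    rank_submatrix_le (G.adjMatrix ℝ) (Subtype.val : W → Fin n) (Subtype.val : W → Fin n)
  obtain ⟨n', G', hdec, hconn, htf, hRle, hRge, hhom⟩ := pad' _ hW (m := 3) (by norm_num)
  refine ⟨(G'.adjMatrix ℝ).rank, by omega, by omega, ?_⟩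
  have h1 := hC n' G' ⟨hconn, htf, by omega⟩
  have h2 : (2 : ℕ) ≤ (G'.adjMatrix ℝ).rank := by omega
  have h3 := log_two_le_log h2
  have h4 : 0 < Real.log 2 := Real.log_pos (by norm_num)
  have h5 : Real.log (G.chromaticNumber.toNat : ℝ) ≤ Real.log (G'.chromaticNumber.toNat : ℝ) := by
    rcases Nat.eq_zero_or_pos G.chromaticNumber.toNat with h0 | h0
    · rw [h0, Nat.cast_zero, Real.log_zero]
      exact Real.log_natCast_nonneg _
    · apply Real.log_le_log (by exact_mod_cast h0)
      have h6 : G'.chromaticNumber ≠ ⊤ := by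
        have : G'.Colorable (Fintype.card (Fin n')) := SimpleGraph.colorable_of_fintype _
        exact ne_top_of_le_ne_top (ENat.natCast_ne_top _) this.chromaticNumber_le
      have h7 := ENat.toNat_le_toNat
        ((SimpleGraph.chromaticNumber_mono_of_hom φ).trans hhom) h6
      exact_mod_cast h7
  refine h5.trans (h1.trans ?_)
  exact mul_le_mul_of_nonneg_right (le_abs_self C) (Real.rpow_nonneg (by linarith) _)

end Pool.Agent.Helper25.LRT
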