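import Pool.Agent.Helper25.LRT.Join

/-!
Transport of a graph on a finite type to `Fin n`.
-/

namespace Pool.Agent.Helper25.LRT

open Finset Matrix Pool.Agent.Helper26

variable {V : Type*} [Fintype V] (G : SimpleGraph V)

/-- A copy of `G` on `Fin n`. -/
noncomputable def fin : SimpleGraph (Fin (Fintype.card V)) := G.comap (Fintype.equivFin V).symm

noncomputable instance [DecidableRel G.Adj] : DecidableRel (fin G).Adj := fun a b =>
  inferInstanceAs (Decidable (G.Adj ((Fintype.equivFin V).symm a) ((Fintype.equivFin V).symm b)))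

/-- The isomorphism. -/
noncomputable def finIso : fin G ≃g G := SimpleGraph.Iso.comap (Fintype.equivFin V).symm G

theorem fin_connected (h : G.Connected) : (fin G).Connected := (finIso G).connected_iff.2 h

theorem fin_tf (h : TF G) : TF (fin G) := by
  intro u v huv hadj hN
  apply h ((Fintype.equivFin V).symm u) ((Fintype.equivFin V).symm v)
    (fun h1 => huv ((Fintype.equivFin V).symm.injective h1)) hadj
  ext w
  have h1 : (Fintype.equivFin V) w ∈ (fin G).neighborSet u ↔
      (Fintype.equivFin V) w ∈ (fin G).neighborSet v := by rw [hN]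
  rw [SimpleGraph.mem_neighborSet, SimpleGraph.mem_neighborSet] at h1 ⊢
  change G.Adj _ ((Fintype.equivFin V).symm (Fintype.equivFin V w)) ↔
    G.Adj _ ((Fintype.equivFin V).symm (Fintype.equivFin V w)) at h1
  rwa [Equiv.symm_apply_apply] at h1

theorem fin_rank [DecidableRel G.Adj] :
    ((fin G).adjMatrix ℝ).rank = (G.adjMatrix ℝ).rank := by
  have h : (fin G).adjMatrix ℝ = (G.adjMatrix ℝ).submatrix (Fintype.equivFin V).symm
      (Fintype.equivFin V).symm := by
    ext i j
    rfl
  rw [h, Matrix.rank_submatrix]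

theorem fin_chi : (fin G).chromaticNumber = G.chromaticNumber :=
  le_antisymm (SimpleGraph.chromaticNumber_mono_of_hom (finIso G).toHom)
    (SimpleGraph.chromaticNumber_mono_of_hom (finIso G).symm.toHom)

theorem fin_nb (h : ∀ v, ∃ w, G.Adj v w) (v : Fin (Fintype.card V)) : ∃ w, (fin G).Adj v w := by
  obtain ⟨w, hw⟩ := h ((Fintype.equivFin V).symm v)
  refine ⟨Fintype.equivFin V w, ?_⟩
  change G.Adj _ ((Fintype.equivFin V).symm (Fintype.equivFin V w))
  rwa [Equiv.symm_apply_apply]

theorem fin_indep {k : ℕ} (h : ∀ s : Finset V, (∀ u ∈ s, ∀ v ∈ s, ¬ G.Adj u v) → #s ≤ k)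
    (s : Finset (Fin (Fintype.card V))) (hs : ∀ u ∈ s, ∀ v ∈ s, ¬ (fin G).Adj u v) : #s ≤ k := by
  rw [← card_map (Fintype.equivFin V).symm.toEmbedding]
  apply h
  intro u hu v hv hadj
  obtain ⟨u', hu', rfl⟩ := mem_map.1 hu
  obtain ⟨v', hv', rfl⟩ := mem_map.1 hv
  exact hs u' hu' v' hv' hadj

end Pool.Agent.Helper25.LRT
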