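import Pool.Agent.Helper25.LRT.Ramsey
import Pool.Agent.Helper25.LRT.Transport

/-!
The Ramsey form of the log-rank conjecture is equivalent to it.
-/

namespace Pool.Agent.Helper25.LRT

open Finset Matrix Pool.Agent.Helper26

theorem real_ramsey (c C : ℝ) : ∃ c' : ℝ, 0 < c' ∧ ∀ x y : ℝ, Real.log 2 ≤ x →
    Real.log 2 ≤ y → x ≤ y + |C| * (3 * y) ^ c → c' * x ^ c' ≤ y := by
  have h2 : 0 < Real.log 2 := Real.log_pos (by norm_num)
  have h21 : Real.log 2 ≤ 1 := by
    have := Real.log_two_lt_d9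
    linarith
  set κ := max 1 c with hκ
  have hκ1 : 1 ≤ κ := le_max_left _ _
  have hκ0 : 0 < κ := by linarith
  set D := Real.log 2 ^ (1 - κ) + |C| * 3 ^ c * Real.log 2 ^ (c - κ) with hD
  have hD0 : 0 < D := by positivity
  refine ⟨min (1 / κ) ((Real.log 2 / D) ^ (1 / κ)), by positivity, ?_⟩
  intro x y hx hy hxy
  have hx0 : 0 < x := by linarith
  have hy0 : 0 < y := by linarith
  have h3 : x ≤ D * y ^ κ := by
    have h4 : y ≤ Real.log 2 ^ (1 - κ) * y ^ κ := by
      have := rpow_le_mul hy hκ1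
      rwa [Real.rpow_one] at this
    have h5 : y ^ c ≤ Real.log 2 ^ (c - κ) * y ^ κ := rpow_le_mul hy (le_max_right _ _)
    have h6 : (3 * y) ^ c = 3 ^ c * y ^ c := Real.mul_rpow (by norm_num) hy0.le
    calc x ≤ y + |C| * (3 * y) ^ c := hxy
      _ = y + |C| * 3 ^ c * y ^ c := by rw [h6]; ring
      _ ≤ Real.log 2 ^ (1 - κ) * y ^ κ + |C| * 3 ^ c * (Real.log 2 ^ (c - κ) * y ^ κ) :=
          add_le_add h4 (mul_le_mul_of_nonneg_left h5 (by positivity))
      _ = D * y ^ κ := by rw [hD]; ring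
  have h7 : (x / D) ^ (1 / κ) ≤ y := by
    have h8 : x / D ≤ y ^ κ := by
      rw [div_le_iff₀ hD0]
      linarith
    have h9 := Real.rpow_le_rpow (by positivity) h8 (show 0 ≤ 1 / κ by positivity)
    rwa [← Real.rpow_mul hy0.le, mul_one_div_cancel hκ0.ne', Real.rpow_one] at h9
  refine le_trans ?_ h7
  generalize hc' : min (1 / κ) ((Real.log 2 / D) ^ (1 / κ)) = c'
  have hc1 : c' ≤ 1 / κ := by rw [← hc']; exact min_le_left _ _
  have hc2 : c' ≤ (Real.log 2 / D) ^ (1 / κ) := by rw [← hc']; exact min_le_right _ _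
  have hc0 : 0 < c' := by
    rw [← hc']
    positivity
  have h10 : x ^ c' ≤ Real.log 2 ^ (c' - 1 / κ) * x ^ (1 / κ) := rpow_le_mul hx hc1
  have h11 : Real.log 2 ^ (c' - 1 / κ) ≤ Real.log 2 ^ (-(1 / κ)) :=
    Real.rpow_le_rpow_of_exponent_ge h2 h21 (by linarith)
  calc c' * x ^ c' ≤ (Real.log 2 / D) ^ (1 / κ) * (Real.log 2 ^ (-(1 / κ)) * x ^ (1 / κ)) := by
        apply mul_le_mul hc2 _ (Real.rpow_nonneg hx0.le _) (Real.rpow_nonneg (by positivity) _)
        exact h10.trans (mul_le_mul_of_nonneg_right h11 (Real.rpow_nonneg hx0.le _))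
    _ = (x / D) ^ (1 / κ) := by
        rw [Real.div_rpow h2.le hD0.le, Real.div_rpow hx0.le hD0.le, Real.rpow_neg h2.le]
        have h12 : Real.log 2 ^ (1 / κ) ≠ 0 := (Real.rpow_pos_of_pos h2 _).ne'
        field_simp

theorem exists_indep_two {n : ℕ} (G : SimpleGraph (Fin n)) [DecidableRel G.Adj] (hn : 2 ≤ n)
    (hr : (G.adjMatrix ℝ).rank = 0) : ∃ s : Finset (Fin n), G.IsIndepSet s ∧ #s = 2 := by
  refine ⟨{⟨0, by omega⟩, ⟨1, by omega⟩}, ?_, ?_⟩
  · intro u _ v _ _ hadj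
    have h1 : (G.adjMatrix ℝ).mulVecLin = 0 := by
      rw [← LinearMap.range_eq_bot]
      exact Submodule.finrank_eq_zero.1 hr
    have h2 := congrFun (LinearMap.congr_fun h1 (Pi.single v 1)) u
    rw [Matrix.mulVecLin_apply, Matrix.mulVec_single_one] at h2
    change G.adjMatrix ℝ u v = 0 at h2
    rw [SimpleGraph.adjMatrix_apply, if_pos hadj] at h2
    simp at h2
  · rw [card_pair]
    simp

theorem ramseyForm_of_logRank (h : LogRank) : RamseyForm := by
  classical
  obtain ⟨c, hc, C, hC⟩ := h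
  obtain ⟨c', hc', hreal⟩ := real_ramsey c C
  refine ⟨c', hc', fun n G _ hn => ?_⟩
  obtain ⟨s, hs, hmax⟩ := Finset.exists_max_image
    ((univ : Finset (Finset (Fin n))).filter fun s : Finset (Fin n) =>
      G.IsIndepSet (s : Set (Fin n)))
    (fun s : Finset (Fin n) => #s) ⟨∅, by simp [SimpleGraph.IsIndepSet]⟩
  have hsI : G.IsIndepSet s := (mem_filter.1 hs).2
  have hmax' : ∀ t : Finset (Fin n), G.IsIndepSet t → #t ≤ #s := fun t ht =>
    hmax t (mem_filter.2 ⟨mem_univ _, ht⟩)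
  refine ⟨s, hsI, ?_⟩
  have hs1 : 1 ≤ #s := by
    have h1 := hmax' {⟨0, hn⟩} (by simp [SimpleGraph.IsIndepSet])
    rwa [card_singleton] at h1
  have hs1' : (1 : ℝ) ≤ #s := by exact_mod_cast hs1
  have hrk0 : (0 : ℝ) ≤ (G.adjMatrix ℝ).rank := Nat.cast_nonneg _
  rcases Nat.lt_or_ge n 2 with hn2 | hn2
  · have hn1 : n = 1 := by omega
    subst hn1
    rw [Nat.cast_one, Real.log_one, Real.zero_rpow hc'.ne', mul_zero, Real.exp_zero]
    nlinarith
  have hprod : (2 : ℝ) ≤ (((G.adjMatrix ℝ).rank : ℝ) + 1) * #s := by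
    rcases Nat.eq_zero_or_pos (G.adjMatrix ℝ).rank with h0 | h0
    · obtain ⟨t, ht, ht2⟩ := exists_indep_two G hn2 h0
      have h1 := hmax' t ht
      rw [ht2] at h1
      have h2 : (2 : ℝ) ≤ #s := by exact_mod_cast h1
      rw [h0]
      simpa using h2
    · have h1 : (1 : ℝ) ≤ (G.adjMatrix ℝ).rank := by exact_mod_cast h0
      nlinarith
  have hpos : (0 : ℝ) < (((G.adjMatrix ℝ).rank : ℝ) + 1) * #s := by linarith
  rw [← Real.le_log_iff_exp_le hpos]
  have h2 : 0 < Real.log 2 := Real.log_pos (by norm_num)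
  have hn0 : (0 : ℝ) < n := by exact_mod_cast hn
  have hy : Real.log 2 ≤ Real.log ((((G.adjMatrix ℝ).rank : ℝ) + 1) * #s) :=
    Real.log_le_log (by norm_num) hprod
  apply hreal _ _ (log_two_le_log hn2) hy
  obtain ⟨R, hR2, hR, hchi⟩ := logRank_all hC G
  have h3 : (n : ℝ) ≤ #s * G.chromaticNumber.toNat :=
    card_le_chi_mul G fun t ht => by exact_mod_cast hmax' t ht
  have hchi0 : (0 : ℝ) < G.chromaticNumber.toNat := by
    rcases Nat.eq_zero_or_pos G.chromaticNumber.toNat with h0 | h0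
    · rw [h0, Nat.cast_zero, mul_zero] at h3
      linarith
    · exact_mod_cast h0
  have h4 := Real.log_le_log hn0 h3
  rw [Real.log_mul (by linarith) hchi0.ne'] at h4
  have h5 : Real.log (#s : ℝ) ≤ Real.log ((((G.adjMatrix ℝ).rank : ℝ) + 1) * #s) :=
    Real.log_le_log (by linarith) (by nlinarith)
  have h6 : Real.log (R : ℝ) ≤ 3 * Real.log ((((G.adjMatrix ℝ).rank : ℝ) + 1) * #s) := by
    have h7 : (R : ℝ) ≤ 4 * ((((G.adjMatrix ℝ).rank : ℝ) + 1) * #s) := by
      have h8 : (R : ℝ) ≤ (G.adjMatrix ℝ).rank + 4 := by exact_mod_cast hR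
      nlinarith
    have h9 : (0 : ℝ) < R := by positivity
    have h10 := Real.log_le_log h9 h7
    rw [Real.log_mul (by norm_num) hpos.ne'] at h10
    have h11 : Real.log 4 = 2 * Real.log 2 := by
      rw [show (4 : ℝ) = 2 ^ 2 by norm_num, Real.log_pow]
      norm_num
    linarith
  have h12 : 0 ≤ Real.log (R : ℝ) := Real.log_natCast_nonneg _
  have h13 : |C| * Real.log (R : ℝ) ^ c ≤
      |C| * (3 * Real.log ((((G.adjMatrix ℝ).rank : ℝ) + 1) * #s)) ^ c :=
    mul_le_mul_of_nonneg_left (Real.rpow_le_rpow h12 h6 hc.le) (abs_nonneg C)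
  linarith

theorem logRank_of_ramseyForm (h : RamseyForm) : LogRank := by
  classical
  obtain ⟨c, hc, hC⟩ := h
  have h2 : 0 < Real.log 2 := Real.log_pos (by norm_num)
  refine ⟨max 1 (1 / c), by positivity,
    3 * Real.log 2 ^ (1 - max 1 (1 / c)) +
      (4 / c) ^ (1 / c) * Real.log 2 ^ (1 / c - max 1 (1 / c)), fun n G _ hG => ?_⟩
  have hr : 2 ≤ (G.adjMatrix ℝ).rank := hG.2.2
  have hL := log_two_le_log hr
  obtain ⟨S, hS, hind⟩ := structure_all G hG.2.2
  generalize hrdef : (G.adjMatrix ℝ).rank = r at hr hL hind ⊢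
  generalize hLdef : Real.log (r : ℝ) = L at hL ⊢
  have hL0 : 0 < L := lt_of_lt_of_le h2 hL
  have hr0 : (0 : ℝ) < r := by positivity
  have hrL : (r : ℝ) = Real.exp L := by rw [← hLdef, Real.exp_log hr0]
  have h3 : L ≤ Real.log 2 ^ (1 - max 1 (1 / c)) * L ^ (max 1 (1 / c)) := by
    have := rpow_le_mul hL (le_max_left 1 (1 / c))
    rwa [Real.rpow_one] at this
  have h4 : L ^ (1 / c) ≤ Real.log 2 ^ (1 / c - max 1 (1 / c)) * L ^ (max 1 (1 / c)) :=
    rpow_le_mul hL (le_max_right 1 (1 / c))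
  have h5 : (0 : ℝ) < (4 / c) ^ (1 / c) := Real.rpow_pos_of_pos (by positivity) _
  suffices hmain : Real.log (G.chromaticNumber.toNat : ℝ) ≤
      3 * L + (4 / c) ^ (1 / c) * L ^ (1 / c) by
    calc Real.log (G.chromaticNumber.toNat : ℝ) ≤ 3 * L + (4 / c) ^ (1 / c) * L ^ (1 / c) := hmain
      _ ≤ 3 * (Real.log 2 ^ (1 - max 1 (1 / c)) * L ^ (max 1 (1 / c))) + (4 / c) ^ (1 / c) *
          (Real.log 2 ^ (1 / c - max 1 (1 / c)) * L ^ (max 1 (1 / c))) :=
          add_le_add (mul_le_mul_of_nonneg_left h3 (by norm_num))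
            (mul_le_mul_of_nonneg_left h4 h5.le)
      _ = _ := by ring
  rcases Nat.eq_zero_or_pos G.chromaticNumber.toNat with h0 | h0
  · rw [h0, Nat.cast_zero, Real.log_zero]
    positivity
  have hS0 : 0 < #S := by omega
  obtain ⟨s, hs, hbound⟩ := hC (Fintype.card S) (fin (G.comap (Subtype.val : S → Fin n)))
    (by rw [Fintype.card_coe]; exact hS0)
  rw [fin_rank] at hbound
  have hcS : Fintype.card S = #S := Fintype.card_coe S
  have hrk : ((G.comap (Subtype.val : S → Fin n)).adjMatrix ℝ).rank ≤ r := by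
    rw [← hrdef]
    exact rank_submatrix_le (G.adjMatrix ℝ) (Subtype.val : S → Fin n) (Subtype.val : S → Fin n)
  have hscard : #s ≤ r ^ 2 := by
    apply fin_indep (G.comap (Subtype.val : S → Fin n)) (k := r ^ 2)
    · intro t ht
      have h6 := hind (t.map ⟨Subtype.val, Subtype.val_injective⟩) (by
        intro x hx
        obtain ⟨y, _, rfl⟩ := mem_map.1 hx
        exact y.2) (by
        intro u hu v hv _ hadj
        rw [mem_coe] at hu hv
        obtain ⟨u', hu', rfl⟩ := mem_map.1 hu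
        obtain ⟨v', hv', rfl⟩ := mem_map.1 hv
        exact ht u' hu' v' hv' hadj)
      rw [card_map] at h6
      exact h6.le
    · intro u hu v hv hadj
      rcases eq_or_ne u v with huv | huv
      · rw [huv] at hadj
        exact (fin (G.comap (Subtype.val : S → Fin n))).loopless.irrefl v hadj
      · exact hs hu hv huv hadj
  have h6 : Real.exp (c * Real.log (#S : ℝ) ^ c) ≤ Real.exp (4 * L) := by
    have h7 : (((G.comap (Subtype.val : S → Fin n)).adjMatrix ℝ).rank : ℝ) ≤ r := by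
      exact_mod_cast hrk
    have h8 : (#s : ℝ) ≤ (r : ℝ) ^ 2 := by exact_mod_cast hscard
    have h9 : (r : ℝ) + 1 ≤ (r : ℝ) ^ 2 := by
      have : (2 : ℝ) ≤ r := by exact_mod_cast hr
      nlinarith
    rw [← hcS]
    calc Real.exp (c * Real.log (Fintype.card S : ℝ) ^ c)
        ≤ ((((G.comap (Subtype.val : S → Fin n)).adjMatrix ℝ).rank : ℝ) + 1) * #s := hbound
      _ ≤ (r : ℝ) ^ 2 * (r : ℝ) ^ 2 := by
          apply mul_le_mul (by linarith) h8 (Nat.cast_nonneg _) (by positivity)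
      _ = Real.exp (4 * L) := by
          rw [hrL, ← Real.exp_nat_mul, ← Real.exp_add]
          congr 1
          rw [Nat.cast_ofNat]
          ring
  have h7 : c * Real.log (#S : ℝ) ^ c ≤ 4 * L := Real.exp_le_exp.1 h6
  have h8 : 0 ≤ Real.log (#S : ℝ) := Real.log_natCast_nonneg _
  have h9 : Real.log (#S : ℝ) ≤ (4 / c) ^ (1 / c) * L ^ (1 / c) := by
    have h10 : Real.log (#S : ℝ) ^ c ≤ 4 / c * L := by
      rw [div_mul_eq_mul_div, le_div_iff₀ hc]
      linarith
    have h11 := Real.rpow_le_rpow (Real.rpow_nonneg h8 _) h10 (show 0 ≤ 1 / c by positivity)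
    rw [← Real.rpow_mul h8, mul_one_div_cancel hc.ne', Real.rpow_one,
      Real.mul_rpow (by positivity) hL0.le] at h11
    exact h11
  have h12 : Real.log (G.chromaticNumber.toNat : ℝ) ≤ Real.log (2 ^ 3 * #S) := by
    apply Real.log_le_log (by exact_mod_cast h0)
    have : (G.chromaticNumber.toNat : ℝ) ≤ ((8 * #S : ℕ) : ℝ) := by exact_mod_cast hS
    push_cast at this
    linarith
  have hS1 : ((#S : ℕ) : ℝ) ≠ 0 := by
    rw [Ne, Nat.cast_eq_zero]
    omega
  rw [Real.log_mul (by norm_num) hS1, Real.log_pow] at h12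
  push_cast at h12
  linarith

/-- The Ramsey form of the log-rank conjecture. -/
theorem logRank_iff_ramseyForm : LogRank ↔ RamseyForm :=
  ⟨ramseyForm_of_logRank, logRank_of_ramseyForm⟩

end Pool.Agent.Helper25.LRT
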