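import Mathlib

/-!
A random `N`-subset of `U` meets every member of a small family of small sets in few points.
-/

namespace Pool.Agent.Helper25.LRT

open Finset

variable {V : Type*} [DecidableEq V]

theorem card_super {U T : Finset V} (N : ℕ) :
    #{S ∈ powersetCard N U | T ⊆ S} ≤ (#U - #T).choose (N - #T) := by
  by_cases hT : T ⊆ U
  · have h : #((powersetCard N U).filter (fun S => T ⊆ S)) ≤ #(powersetCard (N - #T) (U \ T)) := by
      apply card_le_card_of_injOn (fun S => S \ T)
      · intro S hS
        rw [mem_coe, mem_filter, mem_powersetCard] at hS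
        rw [mem_coe, mem_powersetCard]
        exact ⟨sdiff_subset_sdiff hS.1.1 Subset.rfl, by rw [card_sdiff_of_subset hS.2, hS.1.2]⟩
      · intro S hS S' hS' h
        rw [mem_coe, mem_filter] at hS hS'
        have h1 : S \ T = S' \ T := h
        rw [← sdiff_union_of_subset hS.2, ← sdiff_union_of_subset hS'.2, h1]
    rw [card_powersetCard, card_sdiff_of_subset hT] at h
    exact h
  · have h : (powersetCard N U).filter (fun S => T ⊆ S) = ∅ := by
      rw [filter_eq_empty_iff]
      intro S hS hTS
      exact hT (hTS.trans (mem_powersetCard.1 hS).1)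
    rw [h]
    simp

theorem sample {U : Finset V} {F : Finset (Finset V)} {N t x : ℕ} (htN : t ≤ N) (hN : N ≤ #U)
    (hF : ∀ A ∈ F, #A ≤ x) (h : #F * x.choose t * N.choose t < (#U).choose t) :
    ∃ S ⊆ U, #S = N ∧ ∀ A ∈ F, #(S ∩ A) < t := by
  by_contra hcon
  push Not at hcon
  have h1 : powersetCard N U ⊆ F.biUnion fun A => (powersetCard t A).biUnion fun T =>
      {S ∈ powersetCard N U | T ⊆ S} := by
    intro S hS
    obtain ⟨hSU, hSN⟩ := mem_powersetCard.1 hS
    obtain ⟨A, hA, hSA⟩ := hcon S hSU hSN
    obtain ⟨T, hT, hTc⟩ := exists_subset_card_eq hSA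
    refine mem_biUnion.2 ⟨A, hA, mem_biUnion.2 ⟨T, mem_powersetCard.2 ⟨?_, hTc⟩, ?_⟩⟩
    · exact hT.trans inter_subset_right
    · exact mem_filter.2 ⟨hS, hT.trans inter_subset_left⟩
  have h2 : (#U).choose N ≤ #F * (x.choose t * (#U - t).choose (N - t)) := by
    calc (#U).choose N = #(powersetCard N U) := (card_powersetCard _ _).symm
      _ ≤ _ := card_le_card h1
      _ ≤ #F * (x.choose t * (#U - t).choose (N - t)) := by
        apply card_biUnion_le_card_mul
        intro A hA
        calc #((powersetCard t A).biUnion fun T => {S ∈ powersetCard N U | T ⊆ S})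
            ≤ #(powersetCard t A) * (#U - t).choose (N - t) := by
              apply card_biUnion_le_card_mul
              intro T hT
              have h3 := card_super (U := U) (T := T) N
              rwa [(mem_powersetCard.1 hT).2] at h3
          _ ≤ _ := by
              apply Nat.mul_le_mul_right
              rw [card_powersetCard]
              exact Nat.choose_le_choose _ (hF A hA)
  have h3 : (#U).choose N * N.choose t = (#U).choose t * (#U - t).choose (N - t) :=
    Nat.choose_mul htN
  have h4 : 0 < (#U - t).choose (N - t) := Nat.choose_pos (by omega)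
  have h5 : (#U).choose t * (#U - t).choose (N - t) <
      (#U).choose t * (#U - t).choose (N - t) := by
    calc (#U).choose t * (#U - t).choose (N - t) = (#U).choose N * N.choose t := h3.symm
      _ ≤ #F * (x.choose t * (#U - t).choose (N - t)) * N.choose t := Nat.mul_le_mul_right _ h2
      _ = (#F * x.choose t * N.choose t) * (#U - t).choose (N - t) := by ring
      _ < _ := Nat.mul_lt_mul_of_pos_right h h4
  exact lt_irrefl _ h5

theorem desc_ratio {x w : ℕ} (h : x ≤ w) (t : ℕ) :
    x.descFactorial t * w ^ t ≤ w.descFactorial t * x ^ t := by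
  induction t with
  | zero => simp
  | succ t ih =>
    rw [Nat.descFactorial_succ, Nat.descFactorial_succ]
    have h1 : (x - t) * w ≤ (w - t) * x := by
      rw [Nat.sub_mul, Nat.sub_mul, Nat.mul_comm w x]
      apply Nat.sub_le_sub_left
      exact Nat.mul_le_mul_left _ h
    calc (x - t) * x.descFactorial t * w ^ (t + 1)
        = ((x - t) * w) * (x.descFactorial t * w ^ t) := by ring
      _ ≤ ((w - t) * x) * (w.descFactorial t * x ^ t) := Nat.mul_le_mul h1 ih
      _ = _ := by ring

theorem choose_ratio {x w : ℕ} (h : x ≤ w) (t : ℕ) :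
    x.choose t * w ^ t ≤ w.choose t * x ^ t := by
  have h1 := desc_ratio h t
  rw [Nat.descFactorial_eq_factorial_mul_choose, Nat.descFactorial_eq_factorial_mul_choose] at h1
  have h2 : 0 < t.factorial := Nat.factorial_pos t
  have h3 : t.factorial * (x.choose t * w ^ t) ≤ t.factorial * (w.choose t * x ^ t) := by
    calc _ = t.factorial * x.choose t * w ^ t := by ring
      _ ≤ _ := h1
      _ = _ := by ring
  exact Nat.le_of_mul_le_mul_left h3 h2

theorem pow_self_le (t : ℕ) : (t : ℝ) ^ t ≤ 3 ^ t * (t.factorial : ℝ) := by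
  have h1 := Real.pow_div_factorial_le_exp (t : ℝ) (Nat.cast_nonneg t) t
  have h2 : (0 : ℝ) < t.factorial := by exact_mod_cast Nat.factorial_pos t
  rw [div_le_iff₀ h2] at h1
  refine h1.trans ?_
  apply mul_le_mul_of_nonneg_right _ h2.le
  have h3 : Real.exp (t : ℝ) = Real.exp 1 ^ t := by
    rw [← Real.exp_nat_mul, mul_one]
  rw [h3]
  apply pow_le_pow_left₀ (Real.exp_pos 1).le
  have := Real.exp_one_lt_d9
  linarith

theorem pow_self_le_nat (t : ℕ) : t ^ t ≤ 3 ^ t * t.factorial := by
  exact_mod_cast pow_self_le t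

theorem sample_num {K x w N t : ℕ} (ht : t ≤ w) (hw : 0 < w) (hx : x ≤ w)
    (h : 8 * N * x ≤ t * w) (hK : K * 3 ^ t < 8 ^ t) :
    K * x.choose t * N.choose t < w.choose t := by
  have h1 := choose_ratio hx t
  have h2 : N.choose t * t.factorial ≤ N ^ t := by
    have := Nat.choose_le_pow_div (α := ℝ) t N
    have h0 : (0 : ℝ) < t.factorial := by exact_mod_cast Nat.factorial_pos t
    rw [le_div_iff₀ h0] at this
    exact_mod_cast this
  have h3 : 8 ^ t * (x * N) ^ t ≤ 3 ^ t * t.factorial * w ^ t := by
    calc 8 ^ t * (x * N) ^ t = (8 * N * x) ^ t := by rw [← mul_pow]; ring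
      _ ≤ (t * w) ^ t := Nat.pow_le_pow_left h _
      _ = t ^ t * w ^ t := mul_pow _ _ _
      _ ≤ _ := Nat.mul_le_mul_right _ (pow_self_le_nat t)
  have hc : 0 < w.choose t := Nat.choose_pos ht
  have hf : 0 < t.factorial := Nat.factorial_pos t
  have hwt : 0 < w ^ t := Nat.pow_pos hw
  have h4 : (K * x.choose t * N.choose t) * (w ^ t * t.factorial * 8 ^ t) <
      w.choose t * (w ^ t * t.factorial * 8 ^ t) := by
    calc (K * x.choose t * N.choose t) * (w ^ t * t.factorial * 8 ^ t)
        = K * (x.choose t * w ^ t) * (N.choose t * t.factorial) * 8 ^ t := by ring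
      _ ≤ K * (w.choose t * x ^ t) * (N ^ t) * 8 ^ t := by gcongr
      _ = K * w.choose t * (8 ^ t * (x * N) ^ t) := by rw [mul_pow]; ring
      _ ≤ K * w.choose t * (3 ^ t * t.factorial * w ^ t) := Nat.mul_le_mul_left _ h3
      _ = (K * 3 ^ t) * (w.choose t * t.factorial * w ^ t) := by ring
      _ < 8 ^ t * (w.choose t * t.factorial * w ^ t) :=
          Nat.mul_lt_mul_of_pos_right hK (by positivity)
      _ = _ := by ring
  exact lt_of_mul_lt_mul_right h4 (Nat.zero_le _)

end Pool.Agent.Helper25.LRT
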