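import Pool.Agent.Helper25.LRT.Closed

/-!
A twin-free graph of rank `r` has an induced subgraph `H` with `χ(G) ≤ 8 |H|` which has no
independent set of size `r ^ 2`.
-/

namespace Pool.Agent.Helper25.LRT

open Finset Matrix Pool.Agent.Helper26

variable {V : Type*} [Fintype V] [DecidableEq V] (G : SimpleGraph V) [DecidableRel G.Adj]

omit [Fintype V] [DecidableRel G.Adj] in
theorem col_card {U : Finset V} {m : ℕ} (h : #U ≤ m) : Col G U m := by
  classical
  let e := U.equivFin
  refine ⟨fun v => if hv : v ∈ U then (e ⟨v, hv⟩ : ℕ) else 0, ?_, ?_⟩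
  · intro v hv
    simp only [hv, dite_true]
    exact lt_of_lt_of_le (e ⟨v, hv⟩).2 h
  · intro u hu v hv hadj heq
    simp only [hu, hv, dite_true] at heq
    have h1 := e.injective (Fin.ext heq)
    have h2 : u = v := congrArg Subtype.val h1
    exact G.loopless.irrefl v (h2 ▸ hadj)

omit [Fintype V] [DecidableRel G.Adj] in
theorem greedy' {M N : ℕ}
    (h : ∀ U : Finset V, N ≤ #U → ∃ I ⊆ U, #U ≤ M * #I ∧ ∀ u ∈ I, ∀ v ∈ I, ¬ G.Adj u v) (m : ℕ) :
    ∀ U : Finset V, #U * (M - 1) ^ m < N * M ^ m → Col G U (N + m) := by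
  induction m with
  | zero =>
    intro U hcard
    apply col_card
    simp at hcard
    omega
  | succ m ih =>
    intro U hcard
    rcases Nat.lt_or_ge #U N with h0 | h0
    · apply col_card
      omega
    obtain ⟨I, hIU, hIcard, hI⟩ := h U h0
    rcases Nat.eq_zero_or_pos M with hM | hM
    · subst hM
      simp at hcard
    obtain ⟨c, hc1, hc2⟩ := ih (U \ I) (by
      have h1 : #(U \ I) = #U - #I := card_sdiff_of_subset hIU
      have h2 : #I ≤ #U := card_le_card hIU
      have h3 : M * #(U \ I) ≤ (M - 1) * #U := by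
        rw [h1, Nat.mul_sub, Nat.sub_mul, one_mul]
        omega
      have h4 : M * (#(U \ I) * (M - 1) ^ m) < M * (N * M ^ m) := by
        calc M * (#(U \ I) * (M - 1) ^ m) = (M * #(U \ I)) * (M - 1) ^ m := by ring
          _ ≤ ((M - 1) * #U) * (M - 1) ^ m := Nat.mul_le_mul_right _ h3
          _ = #U * (M - 1) ^ (m + 1) := by ring
          _ < N * M ^ (m + 1) := hcard
          _ = M * (N * M ^ m) := by ring
      exact lt_of_mul_lt_mul_left h4 (Nat.zero_le _))
    refine ⟨fun v => if v ∈ I then N + m else c v, ?_, ?_⟩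
    · intro v hv
      dsimp only
      split_ifs with hvI
      · omega
      · have := hc1 v (mem_sdiff.2 ⟨hv, hvI⟩)
        omega
    · intro u hu v hv hadj
      dsimp only
      split_ifs with huI hvI hvI
      · exact absurd hadj (hI u huI v hvI)
      · have := hc1 v (mem_sdiff.2 ⟨hv, hvI⟩)
        omega
      · have := hc1 u (mem_sdiff.2 ⟨hu, huI⟩)
        omega
      · exact hc2 u (mem_sdiff.2 ⟨hu, huI⟩) v (mem_sdiff.2 ⟨hv, hvI⟩) hadj

theorem col_six {r N : ℕ} (hr : 2 ≤ r) (hrk : (G.adjMatrix ℝ).rank ≤ r)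
    (hn : Fintype.card V ≤ 2 ^ r) (hN : r ^ 2 ≤ N)
    (h : ∀ S : Finset V, #S = N → ∃ I ⊆ S, r ^ 2 ≤ #I ∧ ∀ u ∈ I, ∀ v ∈ I, ¬ G.Adj u v) :
    Col G univ (6 * N) := by
  have hr2 : 0 < r ^ 2 := by positivity
  set M := 8 * N / r ^ 2 + 1 with hM
  have hM1 : 8 * N < r ^ 2 * M := by
    rw [hM, Nat.mul_add, mul_one]
    have h1 := Nat.div_add_mod (8 * N) (r ^ 2)
    have h2 := Nat.mod_lt (8 * N) hr2
    omega
  have hg := greedy' G (M := M) (N := N) (fun U hU => by
    obtain ⟨I, hIU, hI, hind⟩ := exists_large_indep G hr hrk hn hN hU (fun S _ hS => h S hS)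
    refine ⟨I, hIU, ?_, hind⟩
    have h1 : r ^ 2 * #U ≤ r ^ 2 * (M * #I) := by
      calc r ^ 2 * #U ≤ 8 * N * #I := hI
        _ ≤ r ^ 2 * M * #I := Nat.mul_le_mul_right _ hM1.le
        _ = _ := by ring
    exact Nat.le_of_mul_le_mul_left h1 hr2) (M * r) univ (by
      rw [card_univ]
      calc Fintype.card V * (M - 1) ^ (M * r) < M ^ (M * r) :=
            greedy_size (by omega) (by rw [hM]; exact Nat.le_add_left _ _) hn
        _ ≤ N * M ^ (M * r) := Nat.le_mul_of_pos_left _ (by omega))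
  have hle : N + M * r ≤ 6 * N := by
    have h1 : r ^ 2 * (8 * N / r ^ 2) ≤ 8 * N := Nat.mul_div_le _ _
    have h2 : 2 * ((8 * N / r ^ 2) * r) ≤ 8 * N := by
      refine le_trans ?_ h1
      calc 2 * ((8 * N / r ^ 2) * r) ≤ r * ((8 * N / r ^ 2) * r) := Nat.mul_le_mul_right _ hr
        _ = _ := by ring
    have h3 : r ≤ r ^ 2 := by nlinarith
    have h4 : M * r = (8 * N / r ^ 2) * r + r := by rw [hM]; ring
    omega
  obtain ⟨c, hc1, hc2⟩ := hg
  exact ⟨c, fun v hv => lt_of_lt_of_le (hc1 v hv) hle, hc2⟩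

omit [DecidableEq V] [DecidableRel G.Adj] in
theorem Col.toNat_le {m : ℕ} (h : Col G univ m) : G.chromaticNumber.toNat ≤ m := by
  obtain ⟨c, hc1, hc2⟩ := h
  have hcol : G.Colorable m := by
    refine ⟨SimpleGraph.Coloring.mk (fun v => (⟨c v, hc1 v (mem_univ v)⟩ : Fin m)) ?_⟩
    intro u v hadj heq
    exact hc2 u (mem_univ u) v (mem_univ v) hadj (congrArg Fin.val heq)
  exact ENat.toNat_le_of_le_natCast hcol.chromaticNumber_le

theorem structure_thm {r : ℕ} (hr : 2 ≤ r) (hrk : (G.adjMatrix ℝ).rank ≤ r)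
    (hn : Fintype.card V ≤ 2 ^ r) :
    ∃ S : Finset V, G.chromaticNumber.toNat ≤ 8 * #S ∧
      ∀ I ⊆ S, (∀ u ∈ I, ∀ v ∈ I, ¬ G.Adj u v) → #I < r ^ 2 := by
  classical
  let P : Finset V → Prop := fun S => ∀ I ⊆ S, (∀ u ∈ I, ∀ v ∈ I, ¬ G.Adj u v) → #I < r ^ 2
  have hr2 : 4 ≤ r ^ 2 := by nlinarith
  have hne : ({S : Finset V | P S} : Finset (Finset V)).Nonempty := by
    refine ⟨∅, mem_filter.2 ⟨mem_univ _, ?_⟩⟩
    intro I hI _
    rw [subset_empty.1 hI, card_empty]
    omega
  obtain ⟨S, hS, hmax⟩ := exists_max_image _ (fun S : Finset V => #S) hne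
  have hPS : P S := (mem_filter.1 hS).2
  refine ⟨S, ?_, hPS⟩
  have hSn : #S ≤ Fintype.card V := card_le_univ S
  rcases Nat.eq_or_lt_of_le hSn with heq | hlt
  · refine (Col.toNat_le G (col_card G (m := #S) ?_)).trans (by omega)
    rw [card_univ, heq]
  · have hfail : ∀ S' : Finset V, #S' = #S + 1 → ¬ P S' := by
      intro S' hS' hP
      have := hmax S' (mem_filter.2 ⟨mem_univ _, hP⟩)
      omega
    have hN : r ^ 2 ≤ #S + 1 := by
      by_contra hlt'
      obtain ⟨S', _, hS'⟩ := exists_subset_card_eq (s := (univ : Finset V)) (n := #S + 1)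
        (by rw [card_univ]; exact hlt)
      apply hfail S' hS'
      intro I hI _
      have := card_le_card hI
      omega
    have hcol := col_six G hr hrk hn hN (fun S' hS' => by
      have h1 := hfail S' hS'
      simp only [P] at h1
      push Not at h1
      obtain ⟨I, hI, hind, hcard⟩ := h1
      exact ⟨I, hI, hcard, hind⟩)
    refine (Col.toNat_le G hcol).trans ?_
    omega

end Pool.Agent.Helper25.LRT
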